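import Pool.Agent.TH185.C.BDefs

/-!
# The spherical Hall algebra of a curve over `\bar 𝔽_p` (Euler characteristic version)

Curves and vector bundles are described as in `Pool/Agent/TH185/C/Defs.lean`: a curve `X` over the
algebraically closed field `𝕜` is given by its function field `K`, a vector bundle of rank `n` by
local frames, with stalks `g_v 𝒪_v ^ n ⊆ K ^ n`.

All subsheaves of a vector bundle `E ⊆ K ^ n` are vector bundles contained in the constant sheaf
`K ^ n`; we describe them by their families of stalks.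
-/

open scoped WithZero Matrix
open Filter

namespace Pool.Agent.TH185

open Pool.Agent.TH185.C

variable {𝕜 K : Type} [Field 𝕜] [Field K] [Algebra 𝕜 K] {n : ℕ}

/-- Families `(F_v)` of subsets of `K ^ n`, indexed by the closed points of the curve. -/
abbrev Fam (𝕜 K : Type) [Field 𝕜] [Field K] [Algebra 𝕜 K] (n : ℕ) : Type :=
  Point 𝕜 K → Set (Fin n → K)

/-- `(F_v)` is the family of stalks of a vector bundle of rank `r` and degree `d` which is contained
in the constant sheaf `K ^ n`. -/
def IsSheaf (r : ℕ) (d : ℤ) (F : Fam 𝕜 K n) : Prop :=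
  ∃ (E : Bundle 𝕜 K r) (j : (Fin r → K) →ₗ[K] (Fin n → K)),
    Function.Injective j ∧ E.degree = d ∧ ∀ v, F v = j '' E.stalk v

/-- The generators of the spherical Hall algebra: `tor k` is the constant function `1` on the stack
`Coh_{0,k}` of torsion sheaves of degree `k`, and `bun l` is the constant function `1` on the stack
`Bun_{1,l}` of line bundles of degree `l`. -/
inductive Gen
  | tor (k : ℕ)
  | bun (l : ℤ)

/-- `F` is a subsheaf of `G`, and the quotient `G / F` is a torsion sheaf of degree `k` (for the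
generator `tor k`), respectively a line bundle of degree `l` (for the generator `bun l`). -/
def Gen.Quot : Gen → Fam 𝕜 K n → Fam 𝕜 K n → Prop
  | .tor k, F, G => (∀ v, F v ⊆ G v) ∧ ∃ (r : ℕ) (d : ℤ), IsSheaf r d F ∧ IsSheaf r (d + k) G
  | .bun l, F, G => (∀ v, F v ⊆ G v) ∧
      (∃ (r : ℕ) (d : ℤ), IsSheaf r d F ∧ IsSheaf (r + 1) (d + l) G) ∧
      ∀ v, ∀ s ∈ G v, ∀ a : K, a ≠ 0 → a • s ∈ F v → s ∈ F v

/-- `(F_v)` is stable under the automorphism `ψ` of `K` (acting on `K ^ n` and on the points). -/
def Stable (ψ : K ≃+* K) (F : Fam 𝕜 K n) : Prop :=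
  ∀ v w : Point 𝕜 K, (∀ x, w.val (ψ x) = v.val x) →
    ∀ s : Fin n → K, s ∈ F v ↔ (fun i => ψ (s i)) ∈ F w

open Classical in
/-- The value at `G` of the product `x₁ * ⋯ * x_m` of generators in the Hall algebra of the curve
`X₀` over the finite field `𝔽_Q`, where `X = X₀ ⊗ 𝕜` and `ψ` is the Frobenius automorphism; the Hall
product is `(f * g)(G) = ∑ f (G / F) g (F)`, the sum over all subsheaves `F` of `G`. In other words
this is the number of `𝔽_Q`-rational points of the variety of all flags of subsheaves of `G` with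
factors `x₁, ..., x_m` (`x_m` is the type of the smallest nonzero member). -/
noncomputable def wordPoints (ψ : K ≃+* K) : List Gen → Fam 𝕜 K n → ℕ
  | [], G => if ∀ v, G v = {0} then 1 else 0
  | x :: w, G => ∑ᶠ (F : Fam 𝕜 K n) (_ : Stable ψ F ∧ x.Quot F G), wordPoints ψ w F

/-- An `𝔽_q`-structure on the curve: the Frobenius automorphism `frob = id ⊗ (c ↦ c ^ q)` of
`K = K₀ ⊗ 𝕜`, where `K₀` is the function field of a curve over `𝔽_q`. -/
structure FrobeniusStructure (𝕜 K : Type) [Field 𝕜] [Field K] [Algebra 𝕜 K] (q : ℕ) where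
  /-- the Frobenius automorphism -/
  frob : K ≃+* K
  frob_const : ∀ c : 𝕜, frob (algebraMap 𝕜 K c) = algebraMap 𝕜 K (c ^ q)
  locallyFinite : ∀ x : K, ∃ m : ℕ, 0 < m ∧ (frob ^ m) x = x

variable {q : ℕ} (Φ : FrobeniusStructure 𝕜 K q) (ℓ : ℕ) [Fact ℓ.Prime] (U : Ultrafilter ℕ)

/-- The value of the product `x₁ * ⋯ * x_m` of generators at the vector bundle `E` in the Hall
algebra of constructible functions with the product `(f * g)(E) = ∫ f (E / F) g (F) dχ`, that is, the
Euler characteristic of the variety of flags of subsheaves of `E` with factors `x₁, ..., x_m`. The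
Euler characteristic of a variety `Y` over `𝕜` which is defined over a finite field `𝔽_q` is the
`ℓ`-adic limit of the number of its points with values in the field with `q ^ (m!)` elements for
`m → ∞` (the Frobenius eigenvalues on the `ℓ`-adic cohomology with compact supports are `ℓ`-adic
units); here the limit is taken along an arbitrary nonprincipal ultrafilter, so that it exists for
trivial reasons. -/
noncomputable def chi (w : List Gen) (E : Bundle 𝕜 K n) : ℚ_[ℓ] :=
  ((limUnder (U : Filter ℕ) fun m : ℕ =>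
    ((wordPoints (Φ.frob ^ m.factorial) w E.stalk : ℕ) : ℤ_[ℓ]) : ℤ_[ℓ]) : ℚ_[ℓ])

/-- The restriction to `Bun_{r,d}` of the component of class `(r, d)` of the spherical Hall algebra:
the span of the products of generators, as functions on the vector bundles of rank `r` and
degree `d`. -/
noncomputable def Hsph (r : ℕ) (d : ℤ) :
    Submodule ℚ_[ℓ] ({E : Bundle 𝕜 K r // E.degree = d} → ℚ_[ℓ]) :=
  Submodule.span ℚ_[ℓ] (Set.range fun w : List Gen => fun E => chi Φ ℓ U w E.1)

/-- `E` is isomorphic to a direct sum of two nonzero vector bundles. -/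
def IsDecomposable {r : ℕ} (E : Bundle 𝕜 K r) : Prop :=
  ∃ (r₁ r₂ : ℕ) (E₁ : Bundle 𝕜 K r₁) (E₂ : Bundle 𝕜 K r₂)
    (e : (Fin r → K) ≃ₗ[K] (Fin r₁ → K) × (Fin r₂ → K)), 0 < r₁ ∧ 0 < r₂ ∧
    ∀ v s, s ∈ E.stalk v ↔ (e s).1 ∈ E₁.stalk v ∧ (e s).2 ∈ E₂.stalk v

/-- The primitive elements: a primitive element of the Hall algebra of class `(r, d)`, `r ≥ 1`, is a
function which vanishes on all decomposable sheaves; so it vanishes on all sheaves with torsion, and
it is determined by its restriction to `Bun_{r,d}`, which is an element of the following space. -/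
noncomputable def hsph (r : ℕ) (d : ℤ) :
    Submodule ℚ_[ℓ] ({E : Bundle 𝕜 K r // E.degree = d} → ℚ_[ℓ]) where
  carrier := {f | f ∈ Hsph Φ ℓ U r d ∧ ∀ E, IsDecomposable E.1 → f E = 0}
  add_mem' := fun ha hb => ⟨add_mem ha.1 hb.1, fun E hE => by
    rw [Pi.add_apply, ha.2 E hE, hb.2 E hE, add_zero]⟩
  zero_mem' := ⟨zero_mem _, fun _ _ => rfl⟩
  smul_mem' := fun c f hf => ⟨Submodule.smul_mem _ c hf.1, fun E hE => by
    rw [Pi.smul_apply, hf.2 E hE, smul_zero]⟩

end Pool.Agent.TH185
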