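import Pool.Agent.TH185.C.Duality
import Pool.Agent.TH185.Def

/-! Frobenius automorphisms, their action on points, valuations of vectors, normalized vectors. -/

open scoped WithZero Matrix
open WithZero

set_option linter.unusedSectionVars false

namespace Pool.Agent.TH185

open Pool.Agent.TH185.C

/-- A Frobenius automorphism: an automorphism `ψ` of `K` which is `c ↦ c ^ (p ^ e)` on the constants
and such that every element of `K` is fixed by a power of `ψ`. -/
structure FD (𝕜 K : Type) [Field 𝕜] [Field K] [Algebra 𝕜 K] where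
  p : ℕ
  prime : p.Prime
  char : CharP 𝕜 p
  e : ℕ
  epos : 0 < e
  ψ : K ≃+* K
  const : ∀ c : 𝕜, ψ (algebraMap 𝕜 K c) = algebraMap 𝕜 K (c ^ (p ^ e))
  locFin : ∀ x : K, ∃ m : ℕ, 0 < m ∧ (ψ ^ m) x = x

namespace FD

variable {𝕜 K : Type} [Field 𝕜] [Field K] [Algebra 𝕜 K] {n : ℕ}

/-- the number of elements of the field of constants of the fixed field -/
def Q (S : FD 𝕜 K) : ℕ := S.p ^ S.e

theorem Q_pos (S : FD 𝕜 K) : 0 < S.Q := pow_pos S.prime.pos _

theorem two_le_Q (S : FD 𝕜 K) : 2 ≤ S.Q := by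
  have h1 := S.prime.two_le
  have h2 : S.p ^ 1 ≤ S.p ^ S.e := Nat.pow_le_pow_right S.prime.pos S.epos
  rw [pow_one] at h2
  exact h1.trans h2

theorem const' (S : FD 𝕜 K) (c : 𝕜) : S.ψ (algebraMap 𝕜 K c) = algebraMap 𝕜 K (c ^ S.Q) :=
  S.const c

theorem pow_const (S : FD 𝕜 K) (m : ℕ) (c : 𝕜) :
    (S.ψ ^ m) (algebraMap 𝕜 K c) = algebraMap 𝕜 K (c ^ (S.Q ^ m)) := by
  induction m with
  | zero => simp
  | succ m ih =>
    rw [pow_succ', RingAut.mul_apply, ih, S.const', ← pow_mul, pow_succ]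

/-- the powers of a Frobenius automorphism -/
def pow (S : FD 𝕜 K) (m : ℕ) (hm : 0 < m) : FD 𝕜 K where
  p := S.p
  prime := S.prime
  char := S.char
  e := S.e * m
  epos := Nat.mul_pos S.epos hm
  ψ := S.ψ ^ m
  const c := by
    rw [S.pow_const, Q, pow_mul]
  locFin x := by
    obtain ⟨k, hk, hx⟩ := S.locFin x
    refine ⟨k, hk, ?_⟩
    rw [← pow_mul, mul_comm, pow_mul]
    have : ∀ i : ℕ, ((S.ψ ^ k) ^ i) x = x := by
      intro i
      induction i with
      | zero => simp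
      | succ i ih => rw [pow_succ', RingAut.mul_apply, ih, hx]
    exact this m

theorem pow_ψ (S : FD 𝕜 K) (m : ℕ) (hm : 0 < m) : (S.pow m hm).ψ = S.ψ ^ m := rfl

theorem pow_Q (S : FD 𝕜 K) (m : ℕ) (hm : 0 < m) : (S.pow m hm).Q = S.Q ^ m := pow_mul _ _ _

theorem symm_const (S : FD 𝕜 K) {c : 𝕜} (hc : c ≠ 0) :
    ∃ d : 𝕜, d ≠ 0 ∧ S.ψ.symm (algebraMap 𝕜 K c) = algebraMap 𝕜 K d := by
  obtain ⟨m, hm, h⟩ := S.locFin (algebraMap 𝕜 K c)
  obtain ⟨m, rfl⟩ : ∃ m', m = m' + 1 := ⟨m - 1, by omega⟩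
  rw [pow_succ', RingAut.mul_apply, S.pow_const] at h
  refine ⟨c ^ (S.Q ^ m), pow_ne_zero _ hc, ?_⟩
  rw [RingEquiv.symm_apply_eq]
  exact h.symm

/-- the action of the Frobenius automorphism on the points: `(ψ v) (ψ x) = v x` -/
def ptFun (S : FD 𝕜 K) (v : Point 𝕜 K) : Point 𝕜 K where
  val := v.val.comap S.ψ.symm.toRingHom
  surj := by
    intro y
    obtain ⟨x, rfl⟩ := v.surj y
    refine ⟨S.ψ x, ?_⟩
    change v.val (S.ψ.symm (S.ψ x)) = _
    rw [RingEquiv.symm_apply_apply]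
  const := by
    intro c hc
    obtain ⟨d, hd, h⟩ := S.symm_const hc
    change v.val (S.ψ.symm (algebraMap 𝕜 K c)) = 1
    rw [h, v.const d hd]

theorem ptFun_val (S : FD 𝕜 K) (v : Point 𝕜 K) (x : K) : (S.ptFun v).val (S.ψ x) = v.val x := by
  change v.val (S.ψ.symm (S.ψ x)) = _
  rw [RingEquiv.symm_apply_apply]

/-- the inverse action -/
def ptInv (S : FD 𝕜 K) (v : Point 𝕜 K) : Point 𝕜 K where
  val := v.val.comap S.ψ.toRingHom
  surj := by
    intro y
    obtain ⟨x, rfl⟩ := v.surj y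
    refine ⟨S.ψ.symm x, ?_⟩
    change v.val (S.ψ (S.ψ.symm x)) = _
    rw [RingEquiv.apply_symm_apply]
  const := by
    intro c hc
    change v.val (S.ψ (algebraMap 𝕜 K c)) = 1
    rw [S.const, v.const _ (pow_ne_zero _ hc)]

/-- the action of the Frobenius automorphism on the points, as a permutation -/
def pt (S : FD 𝕜 K) : Equiv.Perm (Point 𝕜 K) where
  toFun := S.ptFun
  invFun := S.ptInv
  left_inv v := by
    ext x
    change v.val (S.ψ.symm (S.ψ x)) = _
    rw [RingEquiv.symm_apply_apply]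
  right_inv v := by
    ext x
    change v.val (S.ψ (S.ψ.symm x)) = _
    rw [RingEquiv.apply_symm_apply]

@[simp]
theorem pt_val (S : FD 𝕜 K) (v : Point 𝕜 K) (x : K) : (S.pt v).val (S.ψ x) = v.val x :=
  S.ptFun_val v x

theorem eq_pt_iff (S : FD 𝕜 K) (v w : Point 𝕜 K) : (∀ x, w.val (S.ψ x) = v.val x) ↔ w = S.pt v := by
  constructor
  · intro h
    ext x
    obtain ⟨y, rfl⟩ := S.ψ.surjective x
    rw [h, S.pt_val]
  · rintro rfl x
    exact S.pt_val v x

theorem pt_pow_val (S : FD 𝕜 K) (m : ℕ) (v : Point 𝕜 K) (x : K) :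
    ((S.pt ^ m) v).val ((S.ψ ^ m) x) = v.val x := by
  induction m with
  | zero => simp
  | succ m ih =>
    rw [pow_succ', pow_succ', RingAut.mul_apply, Equiv.Perm.mul_apply, S.pt_val, ih]

theorem pow_pt (S : FD 𝕜 K) (m : ℕ) (hm : 0 < m) : (S.pow m hm).pt = S.pt ^ m := by
  ext1 v
  symm
  rw [← (S.pow m hm).eq_pt_iff]
  intro x
  exact S.pt_pow_val m v x

/-- the coordinatewise action on `K ^ n` -/
def vec (S : FD 𝕜 K) (s : Fin n → K) : Fin n → K := fun i => S.ψ (s i)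

theorem vec_apply (S : FD 𝕜 K) (s : Fin n → K) (i : Fin n) : S.vec s i = S.ψ (s i) := rfl

theorem vec_add (S : FD 𝕜 K) (s t : Fin n → K) : S.vec (s + t) = S.vec s + S.vec t := by
  ext i; simp [vec]

theorem vec_smul (S : FD 𝕜 K) (a : K) (s : Fin n → K) : S.vec (a • s) = S.ψ a • S.vec s := by
  ext i; simp [vec]

theorem vec_zero (S : FD 𝕜 K) : S.vec (0 : Fin n → K) = 0 := by
  ext i; simp [vec]

theorem vec_injective (S : FD 𝕜 K) : Function.Injective (S.vec : (Fin n → K) → (Fin n → K)) := by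
  intro s t h
  ext i
  exact S.ψ.injective (congrFun h i)

theorem stable_iff (S : FD 𝕜 K) (F : Fam 𝕜 K n) :
    Stable S.ψ F ↔ ∀ v s, s ∈ F v ↔ S.vec s ∈ F (S.pt v) := by
  constructor
  · intro h v s
    exact h v (S.pt v) (S.pt_val v) s
  · intro h v w hw s
    rw [S.eq_pt_iff] at hw
    subst hw
    exact h v s

end FD

section nval

variable {𝕜 K : Type} [Field 𝕜] [Field K] [Algebra 𝕜 K] {n : ℕ}

/-- The norm of a vector at `v` with respect to the stalk of `E`: the largest valuation of its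
coordinates with respect to the frame. -/
def nval (E : Bundle 𝕜 K n) (v : Point 𝕜 K) (s : Fin n → K) : ℤᵐ⁰ :=
  Finset.univ.sup fun i => v.val (((E.frame v)⁻¹.1 *ᵥ s) i)

theorem nval_le_iff (E : Bundle 𝕜 K n) (v : Point 𝕜 K) (s : Fin n → K) (a : ℤᵐ⁰) :
    nval E v s ≤ a ↔ ∀ i, v.val (((E.frame v)⁻¹.1 *ᵥ s) i) ≤ a := by
  rw [nval, Finset.sup_le_iff]
  simp

theorem mem_stalk_iff_nval (E : Bundle 𝕜 K n) (v : Point 𝕜 K) (s : Fin n → K) :
    s ∈ E.stalk v ↔ nval E v s ≤ 1 := by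
  rw [nval_le_iff]
  rfl

theorem nval_smul (E : Bundle 𝕜 K n) (v : Point 𝕜 K) (a : K) (s : Fin n → K) :
    nval E v (a • s) = v.val a * nval E v s := by
  apply le_antisymm
  · rw [nval_le_iff]
    intro i
    rw [Matrix.mulVec_smul, Pi.smul_apply, smul_eq_mul, map_mul]
    exact mul_le_mul_right ((nval_le_iff E v s _).1 le_rfl i) _
  · rcases eq_or_ne a 0 with rfl | ha
    · rw [map_zero, zero_mul]
      exact zero_le
    have hva : 0 < v.val a := zero_lt_iff.2 ((Valuation.ne_zero_iff _).2 ha)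
    rw [mul_comm, ← le_div_iff₀ hva, nval_le_iff]
    intro i
    rw [le_div_iff₀ hva, mul_comm, ← map_mul]
    have := (nval_le_iff E v (a • s) _).1 le_rfl i
    rwa [Matrix.mulVec_smul, Pi.smul_apply, smul_eq_mul] at this

theorem nval_le_val_iff (E : Bundle 𝕜 K n) (v : Point 𝕜 K) (s : Fin n → K) {a : K} (ha : a ≠ 0) :
    nval E v s ≤ v.val a ↔ a⁻¹ • s ∈ E.stalk v := by
  have hva : 0 < v.val a := zero_lt_iff.2 ((Valuation.ne_zero_iff _).2 ha)
  rw [mem_stalk_iff_nval, nval_smul, map_inv₀, inv_mul_le_iff₀ hva, mul_one]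

theorem nval_add (E : Bundle 𝕜 K n) (v : Point 𝕜 K) (s t : Fin n → K) :
    nval E v (s + t) ≤ max (nval E v s) (nval E v t) := by
  rw [nval_le_iff]
  intro i
  rw [Matrix.mulVec_add, Pi.add_apply]
  exact (Valuation.map_add _ _ _).trans (max_le_max ((nval_le_iff E v s _).1 le_rfl i)
    ((nval_le_iff E v t _).1 le_rfl i))

theorem nval_zero (E : Bundle 𝕜 K n) (v : Point 𝕜 K) : nval E v 0 = 0 := by
  rw [← le_zero_iff, nval_le_iff]
  intro i
  rw [Matrix.mulVec_zero, Pi.zero_apply, map_zero]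

theorem nval_ne_zero (E : Bundle 𝕜 K n) (v : Point 𝕜 K) {s : Fin n → K} (hs : s ≠ 0) :
    nval E v s ≠ 0 := by
  intro h
  apply hs
  have h1 : (E.frame v)⁻¹.1 *ᵥ s = 0 := by
    ext i
    have := (nval_le_iff E v s 0).1 h.le i
    rw [le_zero_iff, map_eq_zero] at this
    exact this
  have h2 : (E.frame v).1 *ᵥ ((E.frame v)⁻¹.1 *ᵥ s) = s := by
    rw [Matrix.mulVec_mulVec, ← Units.val_mul, mul_inv_cancel, Units.val_one, Matrix.one_mulVec]
  rw [← h2, h1, Matrix.mulVec_zero]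

/-- the norm depends only on the stalk -/
theorem nval_congr {E F : Bundle 𝕜 K n} {v : Point 𝕜 K} (h : E.stalk v = F.stalk v)
    (s : Fin n → K) : nval E v s = nval F v s := by
  rcases eq_or_ne s 0 with rfl | hs
  · rw [nval_zero, nval_zero]
  obtain ⟨a, ha⟩ := v.surj (nval E v s)
  obtain ⟨b, hb⟩ := v.surj (nval F v s)
  have ha0 : a ≠ 0 := by
    rintro rfl
    rw [map_zero] at ha
    exact nval_ne_zero E v hs ha.symm
  have hb0 : b ≠ 0 := by
    rintro rfl
    rw [map_zero] at hb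
    exact nval_ne_zero F v hs hb.symm
  apply le_antisymm
  · rw [← hb, nval_le_val_iff E v s hb0, h, ← nval_le_val_iff F v s hb0, hb]
  · rw [← ha, nval_le_val_iff F v s ha0, ← h, ← nval_le_val_iff E v s ha0, ha]

theorem nval_pt (S : FD 𝕜 K) {E : Bundle 𝕜 K n} (hE : Stable S.ψ E.stalk) (v : Point 𝕜 K)
    (s : Fin n → K) : nval E (S.pt v) (S.vec s) = nval E v s := by
  rw [S.stable_iff] at hE
  rcases eq_or_ne s 0 with rfl | hs
  · rw [S.vec_zero, nval_zero, nval_zero]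
  have hs' : S.vec s ≠ 0 := by
    intro h
    exact hs (S.vec_injective (by rw [h, S.vec_zero]))
  obtain ⟨a, ha⟩ := v.surj (nval E v s)
  obtain ⟨b, hb⟩ := (S.pt v).surj (nval E (S.pt v) (S.vec s))
  obtain ⟨b, rfl⟩ := S.ψ.surjective b
  have ha0 : a ≠ 0 := by
    rintro rfl
    rw [map_zero] at ha
    exact nval_ne_zero E v hs ha.symm
  have hb0 : b ≠ 0 := by
    rintro rfl
    rw [map_zero, map_zero] at hb
    exact nval_ne_zero E _ hs' hb.symm
  have hb0' : S.ψ b ≠ 0 := (map_ne_zero S.ψ).2 hb0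
  apply le_antisymm
  · have h1 : a⁻¹ • s ∈ E.stalk v := (nval_le_val_iff E v s ha0).1 ha.ge
    have h2 := (hE v _).1 h1
    rw [S.vec_smul, map_inv₀] at h2
    have h3 := (nval_le_val_iff E (S.pt v) (S.vec s) ((map_ne_zero S.ψ).2 ha0)).2 h2
    rwa [S.pt_val, ha] at h3
  · have h1 : (S.ψ b)⁻¹ • S.vec s ∈ E.stalk (S.pt v) :=
      (nval_le_val_iff E (S.pt v) (S.vec s) hb0').1 hb.ge
    rw [← map_inv₀, ← S.vec_smul] at h1
    have h2 := (hE v _).2 h1
    have h3 := (nval_le_val_iff E v s hb0).2 h2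
    rwa [← S.pt_val, hb] at h3

/-- the order of a nonzero vector with respect to the stalk of `E` at `v` -/
noncomputable def vord (E : Bundle 𝕜 K n) (v : Point 𝕜 K) (s : Fin n → K) : ℤ := -log (nval E v s)

/-- the degree of the saturated line subbundle of `E` generated by the nonzero vector `s` -/
noncomputable def vdeg (E : Bundle 𝕜 K n) (s : Fin n → K) : ℤ := ∑ᶠ v : Point 𝕜 K, vord E v s

/-- normalized vectors, they represent the lines in `K ^ n` -/
def IsNorm (s : Fin n → K) : Prop := ∃ i, s i = 1 ∧ ∀ j < i, s j = 0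

/-- the number of saturated line subbundles of `E` of degree `b` which are stable under the Frobenius
automorphism -/
noncomputable def nb (S : FD 𝕜 K) (E : Bundle 𝕜 K n) (b : ℤ) : ℕ :=
  {s : Fin n → K | IsNorm s ∧ S.vec s = s ∧ vdeg E s = b}.ncard

/-- the number of effective divisors of degree `j` which are stable under the Frobenius
automorphism -/
noncomputable def ND (S : FD 𝕜 K) (j : ℤ) : ℕ :=
  {D : Point 𝕜 K →₀ ℕ | (D.degree : ℤ) = j ∧ D.mapDomain S.pt = D}.ncard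

end nval

end Pool.Agent.TH185
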