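import Pool.Agent.TH185.Limit
import Pool.Agent.TH13.J348

/-! The primitive elements of rank two. -/

open scoped WithZero Matrix Topology
open WithZero Filter

set_option linter.unusedSectionVars false

namespace Pool.Agent.TH185

open Pool.Agent.TH185.C

variable {𝕜 K : Type} [Field 𝕜] [IsAlgClosed 𝕜] [Field K] [Algebra 𝕜 K]

section

variable (hK : IsCurve 𝕜 K) (hg : genus 𝕜 K ≠ 0) (S : FD 𝕜 K) (ℓ : ℕ) [Fact ℓ.Prime]
  (U : Ultrafilter ℕ)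

/-- limits of the numbers of effective divisors -/
noncomputable def cN (j : ℤ) : ℤ_[ℓ] := LI ℓ U fun m => ((ND (SM S m) j : ℕ) : ℤ_[ℓ])

/-- limits of the numbers of line subbundles -/
noncomputable def nu {n : ℕ} (E : Bundle 𝕜 K n) (b : ℤ) : ℤ_[ℓ] :=
  LI ℓ U fun m => ((nb (SM S m) E b : ℕ) : ℤ_[ℓ])

/-- limits of the numbers of line subsheaves -/
noncomputable def qq {n : ℕ} (E : Bundle 𝕜 K n) (a : ℤ) : ℤ_[ℓ] :=
  LI ℓ U fun m => ((PA (SM S m) E a : ℕ) : ℤ_[ℓ])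

variable {ℓ U} {S}

theorem ev_of (hU : (U : Filter ℕ) ≤ atTop) {P : ℕ → Prop} (h : ∃ m₀, ∀ m ≥ m₀, P m) :
    ∀ᶠ m in (U : Filter ℕ), P m :=
  hU (eventually_atTop.2 h)

include hK in
theorem cN_zero : cN S ℓ U 0 = 1 := by
  rw [cN]
  simp only [ND_zero hK, Nat.cast_one]
  exact LI_const ℓ U 1

include hK hg in
theorem cN_large (hℓ : ℓ ≠ S.p) (hU : (U : Filter ℕ) ≤ atTop) (j : ℕ)
    (hj : 2 * genus 𝕜 K - 2 < j) : cN S ℓ U j = 0 :=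
  LI_eq ℓ U ((tendsto_ND hK hg S ℓ hℓ j hj).mono_left hU)

theorem LI_Q (hℓ : ℓ ≠ S.p) (hU : (U : Filter ℕ) ≤ atTop) :
    LI ℓ U (fun m => (((SM S m).Q : ℕ) : ℤ_[ℓ])) = 1 :=
  LI_eq ℓ U ((tendsto_Q S ℓ hℓ).mono_left hU)

theorem LI_Q_pow (hℓ : ℓ ≠ S.p) (hU : (U : Filter ℕ) ≤ atTop) (i : ℕ) :
    LI ℓ U (fun m => (((SM S m).Q : ℕ) : ℤ_[ℓ]) ^ i) = 1 :=
  LI_eq ℓ U (by simpa using ((tendsto_Q S ℓ hℓ).mono_left hU).pow i)

theorem LI_GS (hℓ : ℓ ≠ S.p) (hU : (U : Filter ℕ) ≤ atTop) (c : ℕ) :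
    LI ℓ U (fun m => ((GS (SM S m).Q c : ℕ) : ℤ_[ℓ])) = c :=
  LI_eq ℓ U ((tendsto_GS S ℓ hℓ c).mono_left hU)

/-- passage to the limit in `line_count` and `two_count` -/
theorem limit_count (hℓ : ℓ ≠ S.p) (hU : (U : Filter ℕ) ≤ atTop) (x y z : ℕ → ℕ) (M i : ℕ)
    (hM : M ≠ 0)
    (hz : LI ℓ U (fun m => (z m : ℤ_[ℓ])) = 0)
    (h : ∀ᶠ m in (U : Filter ℕ), x m * GS (SM S m).Q M =
      (SM S m).Q ^ i * (y m * GS (SM S m).Q M) + z m * GS (SM S m).Q i) :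
    LI ℓ U (fun m => (x m : ℤ_[ℓ])) = LI ℓ U (fun m => (y m : ℤ_[ℓ])) := by
  have h1 : LI ℓ U (fun m => (x m : ℤ_[ℓ]) * ((GS (SM S m).Q M : ℕ) : ℤ_[ℓ])) =
      LI ℓ U (fun m => (((SM S m).Q : ℕ) : ℤ_[ℓ]) ^ i * ((y m : ℤ_[ℓ]) *
        ((GS (SM S m).Q M : ℕ) : ℤ_[ℓ])) + (z m : ℤ_[ℓ]) * ((GS (SM S m).Q i : ℕ) : ℤ_[ℓ])) := by
    apply LI_congr
    refine h.mono fun m hm => ?_
    exact_mod_cast congrArg (Nat.cast : ℕ → ℤ_[ℓ]) hm
  rw [LI_add, LI_mul, LI_mul, LI_mul, LI_mul, LI_Q_pow hℓ hU, LI_GS hℓ hU, hz, zero_mul, add_zero,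
    one_mul] at h1
  exact mul_right_cancel₀ (Nat.cast_ne_zero.2 hM) h1

include hK hg in
theorem cN_symm (hℓ : ℓ ≠ S.p) (hU : (U : Filter ℕ) ≤ atTop) (i : ℕ) :
    cN S ℓ U (genus 𝕜 K - 1 + i) = cN S ℓ U (genus 𝕜 K - 1 - i) := by
  obtain ⟨P⟩ := point_nonempty hK
  have hN : 2 * (genus 𝕜 K : ℤ) - 2 < ((2 * genus 𝕜 K : ℕ) : ℤ) := by
    push_cast
    omega
  refine limit_count hℓ hU _ _ (fun m => ND (SM S m) ((2 * genus 𝕜 K : ℕ) : ℤ))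
    (2 * genus 𝕜 K + 1 - genus 𝕜 K) i (by omega)
    (cN_large hK hg hℓ hU (2 * genus 𝕜 K) (by omega)) ?_
  filter_upwards [ev_of hU (ev_points hK S {P}), ev_of hU (ev_div hK S (canDiv hK hg))] with m h1 h2
  exact line_count hK hg (SM S m) (h1 P (Finset.mem_singleton_self P)) h2 hN i

include hK hg in
theorem qq_symm_aux (hℓ : ℓ ≠ S.p) (hU : (U : Filter ℕ) ≤ atTop) (E : Bundle 𝕜 K 2) (a : ℤ)
    (ha : 0 ≤ E.degree - 2 * a + 2 - 2 * genus 𝕜 K) :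
    qq S ℓ U E a = qq S ℓ U E (E.degree - a - (2 * genus 𝕜 K - 2)) := by
  obtain ⟨P⟩ := point_nonempty hK
  have hN : 2 * (genus 𝕜 K : ℤ) - 2 < ((2 * genus 𝕜 K : ℕ) : ℤ) := by
    push_cast
    omega
  obtain ⟨c, hc⟩ := Int.eq_ofNat_of_zero_le ha
  refine limit_count hℓ hU _ _ (fun m => ND (SM S m) ((2 * genus 𝕜 K : ℕ) : ℤ))
    (2 * genus 𝕜 K + 1 - genus 𝕜 K) c (by omega)
    (cN_large hK hg hℓ hU (2 * genus 𝕜 K) (by omega)) ?_
  filter_upwards [ev_of hU (ev_points hK S {P}), ev_of hU (ev_stable hK S E),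
    ev_of hU (ev_div hK S (dualDiv hK hg E))] with m h1 h2 h3
  exact two_count hK hg (SM S m) (h1 P (Finset.mem_singleton_self P)) h2 h3 hN a c hc.symm

include hK hg in
theorem qq_symm (hℓ : ℓ ≠ S.p) (hU : (U : Filter ℕ) ≤ atTop) (E : Bundle 𝕜 K 2) (a : ℤ) :
    qq S ℓ U E a = qq S ℓ U E (E.degree - a - (2 * genus 𝕜 K - 2)) := by
  rcases le_total 0 (E.degree - 2 * a + 2 - 2 * (genus 𝕜 K : ℤ)) with h | h
  · exact qq_symm_aux hK hg hℓ hU E a h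
  · rw [qq_symm_aux hK hg hℓ hU E (E.degree - a - (2 * genus 𝕜 K - 2)) (by linarith)]
    congr 1
    ring

include hK hg in
theorem qq_eq_sum (hℓ : ℓ ≠ S.p) (hU : (U : Filter ℕ) ≤ atTop) (E : Bundle 𝕜 K 2) (a : ℤ) :
    qq S ℓ U E a = ∑ j ∈ Finset.range (2 * (genus 𝕜 K - 1) + 1), cN S ℓ U j * nu S ℓ U E (a + j) := by
  obtain ⟨b₀, hb₀⟩ := vdeg_bound hK hg E
  set J : ℕ := max (2 * (genus 𝕜 K - 1) + 1) (b₀ - a + 1).toNat with hJ
  have hJ' : b₀ - a < J := by omega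
  have h1 : qq S ℓ U E a = ∑ j ∈ Finset.range J, cN S ℓ U j * nu S ℓ U E (a + j) := by
    have h2 : qq S ℓ U E a = LI ℓ U (fun m => ∑ j ∈ Finset.range J,
        ((ND (SM S m) j : ℕ) : ℤ_[ℓ]) * ((nb (SM S m) E (a + j) : ℕ) : ℤ_[ℓ])) := by
      apply LI_congr
      filter_upwards [ev_of hU (ev_stable hK S E)] with m hm
      rw [PA_eq_sum hK hg (SM S m) hm hb₀ a J hJ']
      push_cast
      rfl
    rw [h2, LI_sum]
    exact Finset.sum_congr rfl fun j _ => LI_mul ℓ U _ _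
  rw [h1]
  symm
  apply Finset.sum_subset
  · exact Finset.range_subset_range.2 (le_max_left _ _)
  · intro j _ hj
    rw [Finset.mem_range, not_lt] at hj
    rw [cN_large hK hg hℓ hU j (by omega), zero_mul]

/-- the antisymmetrization -/
noncomputable def mm (S : FD 𝕜 K) (ℓ : ℕ) [Fact ℓ.Prime] (U : Ultrafilter ℕ) (d : ℤ) (b : ℤ) :
    {E : Bundle 𝕜 K 2 // E.degree = d} → ℚ_[ℓ] :=
  fun E => (nu S ℓ U E.1 b : ℚ_[ℓ]) - (nu S ℓ U E.1 (d - b) : ℚ_[ℓ])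

include hK hg in
theorem mm_rec (hℓ : ℓ ≠ S.p) (hU : (U : Filter ℕ) ≤ atTop) (d : ℤ) (a : ℤ) :
    ∑ j ∈ Finset.range (2 * (genus 𝕜 K - 1) + 1),
      ((cN S ℓ U (j : ℕ) : ℤ_[ℓ]) : ℚ_[ℓ]) • mm S ℓ U d (a + j) = 0 := by
  have hg1 : 1 ≤ genus 𝕜 K := Nat.pos_of_ne_zero hg
  set N := genus 𝕜 K - 1 with hN
  have hpal : ∀ j ≤ 2 * N, cN S ℓ U (j : ℕ) = cN S ℓ U ((2 * N - j : ℕ) : ℤ) := by
    intro j hj
    rcases le_total j N with h | h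
    · have h1 := cN_symm hK hg hℓ hU (U := U) (S := S) (N - j)
      have e1 : (genus 𝕜 K : ℤ) - 1 + ((N - j : ℕ) : ℤ) = ((2 * N - j : ℕ) : ℤ) := by omega
      have e2 : (genus 𝕜 K : ℤ) - 1 - ((N - j : ℕ) : ℤ) = (j : ℤ) := by omega
      rw [e1, e2] at h1
      exact h1.symm
    · have h1 := cN_symm hK hg hℓ hU (U := U) (S := S) (j - N)
      have e1 : (genus 𝕜 K : ℤ) - 1 + ((j - N : ℕ) : ℤ) = (j : ℤ) := by omega
      have e2 : (genus 𝕜 K : ℤ) - 1 - ((j - N : ℕ) : ℤ) = ((2 * N - j : ℕ) : ℤ) := by omega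
      rw [e1, e2] at h1
      exact h1
  funext E
  rw [Finset.sum_apply]
  simp only [Pi.smul_apply, smul_eq_mul, mm, mul_sub, Finset.sum_sub_distrib, Pi.zero_apply]
  have h1 := qq_eq_sum hK hg hℓ hU (U := U) E.1 a
  have h2 := qq_eq_sum hK hg hℓ hU (U := U) E.1 (E.1.degree - a - (2 * genus 𝕜 K - 2))
  rw [← qq_symm hK hg hℓ hU E.1 a, h1] at h2
  rw [← Finset.sum_range_reflect (fun j => cN S ℓ U (j : ℕ) *
    nu S ℓ U E.1 (E.1.degree - a - (2 * genus 𝕜 K - 2) + (j : ℕ)))] at h2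
  have h3 : ∑ j ∈ Finset.range (2 * N + 1), cN S ℓ U (j : ℕ) * nu S ℓ U E.1 (a + j) =
      ∑ j ∈ Finset.range (2 * N + 1), cN S ℓ U (j : ℕ) * nu S ℓ U E.1 (d - (a + j)) := by
    have h4 : ∀ j ∈ Finset.range (2 * N + 1), cN S ℓ U (j : ℕ) * nu S ℓ U E.1 (d - (a + j)) =
        cN S ℓ U ((2 * N + 1 - 1 - j : ℕ) : ℤ) * nu S ℓ U E.1
          (E.1.degree - a - (2 * genus 𝕜 K - 2) + ((2 * N + 1 - 1 - j : ℕ) : ℤ)) := by
      intro j hj
      rw [Finset.mem_range] at hj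
      rw [hpal j (by omega), E.2]
      congr 2
      omega
    rw [Finset.sum_congr rfl h4, h2]
  have h5 := congrArg (PadicInt.Coe.ringHom (p := ℓ)) h3
  rw [map_sum, map_sum] at h5
  simp only [map_mul] at h5
  exact sub_eq_zero.2 h5

include hK hg in
theorem mm_finite (hℓ : ℓ ≠ S.p) (hU : (U : Filter ℕ) ≤ atTop) (d : ℤ) :
    FiniteDimensional ℚ_[ℓ] (Submodule.span ℚ_[ℓ] (Set.range (mm S ℓ U d))) ∧
      Module.finrank ℚ_[ℓ] (Submodule.span ℚ_[ℓ] (Set.range (mm S ℓ U d))) ≤ genus 𝕜 K - 1 := by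
  have hg1 : 1 ≤ genus 𝕜 K := Nat.pos_of_ne_zero hg
  refine palindromic (genus 𝕜 K - 1) (fun j => ((cN S ℓ U (j : ℕ) : ℤ_[ℓ]) : ℚ_[ℓ])) ?_ ?_ d
    (mm S ℓ U d) ?_ (mm_rec hK hg hℓ hU d)
  · change ((cN S ℓ U ((0 : ℕ) : ℤ) : ℤ_[ℓ]) : ℚ_[ℓ]) = 1
    rw [Nat.cast_zero, cN_zero hK, PadicInt.coe_one]
  · intro j hj
    change ((cN S ℓ U (j : ℕ) : ℤ_[ℓ]) : ℚ_[ℓ]) =
      ((cN S ℓ U ((2 * (genus 𝕜 K - 1) - j : ℕ) : ℤ) : ℤ_[ℓ]) : ℚ_[ℓ])
    congr 1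
    set N := genus 𝕜 K - 1 with hN
    rcases le_total j N with h | h
    · have h1 := cN_symm hK hg hℓ hU (U := U) (S := S) (N - j)
      have e1 : (genus 𝕜 K : ℤ) - 1 + ((N - j : ℕ) : ℤ) = ((2 * N - j : ℕ) : ℤ) := by omega
      have e2 : (genus 𝕜 K : ℤ) - 1 - ((N - j : ℕ) : ℤ) = (j : ℤ) := by omega
      rw [e1, e2] at h1
      exact h1.symm
    · have h1 := cN_symm hK hg hℓ hU (U := U) (S := S) (j - N)
      have e1 : (genus 𝕜 K : ℤ) - 1 + ((j - N : ℕ) : ℤ) = (j : ℤ) := by omega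
      have e2 : (genus 𝕜 K : ℤ) - 1 - ((j - N : ℕ) : ℤ) = ((2 * N - j : ℕ) : ℤ) := by omega
      rw [e1, e2] at h1
      exact h1
  · intro a
    funext E
    simp only [mm, Pi.neg_apply]
    rw [sub_sub_cancel, neg_sub]

include hK hg in
theorem nu_dsum (hℓ : ℓ ≠ S.p) (hU : (U : Filter ℕ) ≤ atTop) (C₁ C₂ : Point 𝕜 K →₀ ℤ) (b : ℤ) :
    nu S ℓ U (dsum C₁ C₂) b =
      (if C₁.degree = b then 1 else 0) + (if C₂.degree = b then 1 else 0) := by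
  classical
  have hx : ∀ m : ℕ, ∃ x : ℕ, ((∀ v, C₁ ((SM S m).pt v) = C₁ v) ∧ ∀ v, C₂ ((SM S m).pt v) = C₂ v) →
      nb (SM S m) (dsum C₁ C₂) b =
        (if C₁.degree = b then 1 else 0) + (if C₂.degree = b then 1 else 0) +
          ((SM S m).Q - 1) * x := by
    intro m
    by_cases h : (∀ v, C₁ ((SM S m).pt v) = C₁ v) ∧ ∀ v, C₂ ((SM S m).pt v) = C₂ v
    · obtain ⟨x, hx⟩ := nb_dsum hK hg (SM S m) h.1 h.2 b
      exact ⟨x, fun _ => hx⟩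
    · exact ⟨0, fun h' => absurd h' h⟩
  choose x hx using hx
  have h1 : nu S ℓ U (dsum C₁ C₂) b = LI ℓ U (fun m =>
      ((if C₁.degree = b then 1 else 0) + (if C₂.degree = b then 1 else 0) : ℤ_[ℓ]) +
        ((((SM S m).Q : ℕ) : ℤ_[ℓ]) + (-1)) * (x m : ℤ_[ℓ])) := by
    apply LI_congr
    filter_upwards [ev_of hU (ev_div hK S C₁), ev_of hU (ev_div hK S C₂)] with m h2 h3
    rw [hx m ⟨h2, h3⟩]
    have h4 : 1 ≤ (SM S m).Q := (SM S m).Q_pos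
    push_cast [Nat.cast_sub h4]
    ring
  have h5 : LI ℓ U (fun m => (((SM S m).Q : ℕ) : ℤ_[ℓ]) + (-1)) = 0 := by
    rw [LI_add, LI_Q hℓ hU, LI_const, add_neg_cancel]
  rw [h1, LI_add, LI_mul, h5, LI_const, zero_mul, add_zero]

/-- the limits of the numbers of line subbundles as functions of the bundle -/
noncomputable def nuV (S : FD 𝕜 K) (ℓ : ℕ) [Fact ℓ.Prime] (U : Ultrafilter ℕ) (d : ℤ) (b : ℤ) :
    {E : Bundle 𝕜 K 2 // E.degree = d} → ℚ_[ℓ] :=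
  fun E => PadicInt.Coe.ringHom (nu S ℓ U E.1 b)

/-- the values of a word -/
theorem chi_eq {q : ℕ} (Φ : FrobeniusStructure 𝕜 K q) (hΦ : S.ψ = Φ.frob) (hK : IsCurve 𝕜 K)
    (hU : (U : Filter ℕ) ≤ atTop) (w : List Gen) (d : ℤ)
    (hword : ∃ B : Finset ℤ, ∀ S : FD 𝕜 K, ∃ c : ℤ → ℕ, ∀ E : Bundle 𝕜 K 2, E.degree = d →
      Stable S.ψ E.stalk → wordPoints S.ψ w E.stalk = ∑ b ∈ B, c b * nb S E b) :
    (fun E : {E : Bundle 𝕜 K 2 // E.degree = d} => chi Φ ℓ U w E.1) ∈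
      Submodule.span ℚ_[ℓ] (Set.range (nuV S ℓ U d)) := by
  obtain ⟨B, hB⟩ := hword
  choose c hc using fun m => hB (SM S m)
  have h1 : (fun E : {E : Bundle 𝕜 K 2 // E.degree = d} => chi Φ ℓ U w E.1) =
      ∑ b ∈ B, PadicInt.Coe.ringHom (LI ℓ U fun m => ((c m b : ℕ) : ℤ_[ℓ])) • nuV S ℓ U d b := by
    funext E
    rw [Finset.sum_apply]
    simp only [Pi.smul_apply, smul_eq_mul, nuV]
    have h2 : chi Φ ℓ U w E.1 = PadicInt.Coe.ringHom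
        (LI ℓ U fun m => ((wordPoints (SM S m).ψ w E.1.stalk : ℕ) : ℤ_[ℓ])) := by
      rw [chi, ← hΦ]
      rfl
    have h3 : LI ℓ U (fun m => ((wordPoints (SM S m).ψ w E.1.stalk : ℕ) : ℤ_[ℓ])) =
        LI ℓ U (fun m => ∑ b ∈ B, ((c m b : ℕ) : ℤ_[ℓ]) * ((nb (SM S m) E.1 b : ℕ) : ℤ_[ℓ])) := by
      apply LI_congr
      filter_upwards [ev_of hU (ev_stable hK S E.1)] with m hm
      rw [hc m E.1 E.2 hm]
      push_cast
      rfl
    rw [h2, h3, LI_sum, map_sum]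
    refine Finset.sum_congr rfl fun b _ => ?_
    rw [LI_mul, map_mul]
    rfl
  rw [h1]
  exact Submodule.sum_mem _ fun b _ =>
    Submodule.smul_mem _ _ (Submodule.subset_span (Set.mem_range_self b))

theorem hsph_le {q : ℕ} (Φ : FrobeniusStructure 𝕜 K q) (hΦ : S.ψ = Φ.frob) (hK : IsCurve 𝕜 K)
    (hg : genus 𝕜 K ≠ 0) (hℓ : ℓ ≠ S.p) (hU : (U : Filter ℕ) ≤ atTop) (d : ℤ)
    (hword : ∀ w : List Gen, ∃ B : Finset ℤ, ∀ S : FD 𝕜 K, ∃ c : ℤ → ℕ, ∀ E : Bundle 𝕜 K 2,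
      E.degree = d → Stable S.ψ E.stalk → wordPoints S.ψ w E.stalk = ∑ b ∈ B, c b * nb S E b) :
    hsph Φ ℓ U 2 d ≤ Submodule.span ℚ_[ℓ] (Set.range (mm S ℓ U d)) := by
  classical
  rintro f ⟨hf, hf0⟩
  have h1 : f ∈ Submodule.span ℚ_[ℓ] (Set.range (nuV S ℓ U d)) := by
    refine (Submodule.span_le.2 ?_) hf
    rintro _ ⟨w, rfl⟩
    exact chi_eq Φ hΦ hK hU w d (hword w)
  obtain ⟨γ, hγ⟩ := (Finsupp.mem_span_range_iff_exists_finsupp).1 h1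
  obtain ⟨P⟩ := point_nonempty hK
  -- the coefficients are antisymmetric
  have hanti : ∀ b, γ (d - b) = -γ b := by
    intro b
    have hdeg : (dsum (Finsupp.single P b) (Finsupp.single P (d - b)) : Bundle 𝕜 K 2).degree = d := by
      rw [dsum_degree, Finsupp.degree_single, Finsupp.degree_single]
      ring
    have h2 := hf0 ⟨_, hdeg⟩ (dsum_decomposable _ _)
    rw [← hγ, Finsupp.sum, Finset.sum_apply] at h2
    simp only [Pi.smul_apply, smul_eq_mul, nuV, nu_dsum hK hg hℓ hU, Finsupp.degree_single,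
      map_add, mul_add, Finset.sum_add_distrib] at h2
    have h3 : ∀ e : ℤ, ∑ x ∈ γ.support, γ x * PadicInt.Coe.ringHom (p := ℓ)
        (if e = x then (1 : ℤ_[ℓ]) else 0) = γ e := by
      intro e
      by_cases he : e ∈ γ.support
      · rw [Finset.sum_eq_single e]
        · rw [if_pos rfl, map_one, mul_one]
        · intro x _ hx
          rw [if_neg (Ne.symm hx), map_zero, mul_zero]
        · intro h
          exact absurd he h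
      · rw [Finset.sum_eq_zero]
        · exact (Finsupp.notMem_support_iff.1 he).symm
        · intro x hx
          rw [if_neg, map_zero, mul_zero]
          rintro rfl
          exact he hx
    rw [h3, h3] at h2
    linear_combination h2
  -- symmetrize
  have hsymm : f = γ.sum fun b x => (-x) • nuV S ℓ U d (d - b) := by
    let e : ℤ ≃ ℤ := ⟨fun b => d - b, fun b => d - b, fun b => sub_sub_cancel d b,
      fun b => sub_sub_cancel d b⟩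
    have h2 : γ = (γ.mapDomain e).mapRange (fun x => -x) neg_zero := by
      ext b
      rw [Finsupp.mapRange_apply]
      have h3 : γ.mapDomain e b = γ (d - b) := by
        have h4 : b = e (d - b) := (sub_sub_cancel d b).symm
        conv_lhs => rw [h4]
        exact Finsupp.mapDomain_apply e.injective _ _
      rw [h3, hanti, neg_neg]
    rw [← hγ]
    conv_lhs => rw [h2]
    rw [Finsupp.sum_mapRange_index (h := fun b x => x • nuV S ℓ U d b) (fun _ => zero_smul _ _),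
      Finsupp.sum_mapDomain_index_inj e.injective]
    rfl
  have hkey : f = (2 : ℚ_[ℓ])⁻¹ • γ.sum fun b x => x • mm S ℓ U d b := by
    have h2 : (γ.sum fun b x => x • mm S ℓ U d b) = f + f := by
      nth_rewrite 1 [← hγ]
      rw [hsymm, ← Finsupp.sum_add]
      refine Finsupp.sum_congr fun b _ => ?_
      have h3 : mm S ℓ U d b = nuV S ℓ U d b - nuV S ℓ U d (d - b) := rfl
      rw [h3, smul_sub, neg_smul, sub_eq_add_neg]
    rw [h2, ← two_smul ℚ_[ℓ] f, smul_smul, inv_mul_cancel₀ two_ne_zero, one_smul]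
  rw [hkey]
  refine Submodule.smul_mem _ _ (Submodule.sum_mem _ fun b _ =>
    Submodule.smul_mem _ _ (Submodule.subset_span (Set.mem_range_self b)))

/-- **Main theorem** (for the automorphism `S`) -/
theorem hsph_bound {q : ℕ} (Φ : FrobeniusStructure 𝕜 K q) (hΦ : S.ψ = Φ.frob) (hK : IsCurve 𝕜 K)
    (hg : genus 𝕜 K ≠ 0) (hℓ : ℓ ≠ S.p) (hU : (U : Filter ℕ) ≤ atTop) (d : ℤ)
    (hword : ∀ w : List Gen, ∃ B : Finset ℤ, ∀ S : FD 𝕜 K, ∃ c : ℤ → ℕ, ∀ E : Bundle 𝕜 K 2,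
      E.degree = d → Stable S.ψ E.stalk → wordPoints S.ψ w E.stalk = ∑ b ∈ B, c b * nb S E b) :
    FiniteDimensional ℚ_[ℓ] (hsph Φ ℓ U 2 d) ∧
      Module.finrank ℚ_[ℓ] (hsph Φ ℓ U 2 d) ≤ genus 𝕜 K - 1 := by
  have h1 := hsph_le Φ hΦ hK hg hℓ hU d hword
  obtain ⟨h2, h3⟩ := mm_finite hK hg hℓ hU d
  exact ⟨Submodule.finiteDimensional_of_le h1, (Submodule.finrank_mono h1).trans h3⟩

end

end Pool.Agent.TH185
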