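import Pool.Agent.TH185.Basic

/-! Fixed points of Frobenius automorphisms. -/

open scoped WithZero Matrix Polynomial
open WithZero

set_option linter.unusedSectionVars false

namespace Pool.Agent.TH185

open Pool.Agent.TH185.C

variable {𝕜 K : Type} [Field 𝕜] [IsAlgClosed 𝕜] [Field K] [Algebra 𝕜 K]

/-- there is a nonconstant rational function fixed by the Frobenius automorphism -/
theorem FD.exists_fixed (hK : IsCurve 𝕜 K) (S : FD 𝕜 K) :
    ∃ t : K, S.ψ t = t ∧ ∀ c : 𝕜, t ≠ algebraMap 𝕜 K c := by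
  obtain ⟨t, ht⟩ := exists_transc hK
  obtain ⟨m, hm, hmt⟩ := S.locFin t
  by_contra hcon
  push Not at hcon
  let P : K[X] := ∏ i ∈ Finset.range m, (Polynomial.X - Polynomial.C ((S.ψ ^ i) t))
  have hP1 : P.map S.ψ.toRingHom = P := by
    rw [Polynomial.map_prod]
    have h1 : ∀ i, (Polynomial.X - Polynomial.C ((S.ψ ^ i) t)).map S.ψ.toRingHom =
        Polynomial.X - Polynomial.C ((S.ψ ^ (i + 1)) t) := by
      intro i
      rw [Polynomial.map_sub, Polynomial.map_X, Polynomial.map_C, pow_succ']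
      rfl
    simp only [h1]
    obtain ⟨m, rfl⟩ : ∃ m', m = m' + 1 := ⟨m - 1, by omega⟩
    rw [Finset.prod_range_succ, hmt]
    change _ = ∏ i ∈ Finset.range (m + 1), (Polynomial.X - Polynomial.C ((S.ψ ^ i) t))
    rw [Finset.prod_range_succ' _ m]
    simp
  have hP2 : ∀ j, ∃ c : 𝕜, P.coeff j = algebraMap 𝕜 K c := by
    intro j
    apply hcon
    conv_rhs => rw [← hP1, Polynomial.coeff_map]
    rfl
  choose c hc using hP2
  have hmonic : P.Monic := Polynomial.monic_prod_of_monic _ _ fun i _ =>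
    Polynomial.monic_X_sub_C _
  have hlift : P ∈ Polynomial.lifts (algebraMap 𝕜 K) := by
    rw [Polynomial.lifts_iff_coeff_lifts]
    intro j
    exact ⟨c j, (hc j).symm⟩
  obtain ⟨p, hp, -, hpm⟩ := Polynomial.lifts_and_degree_eq_and_monic hlift hmonic
  apply ht
  refine ⟨p, hpm.ne_zero, ?_⟩
  rw [Polynomial.aeval_def, ← Polynomial.eval_map, hp, Polynomial.eval_prod]
  refine Finset.prod_eq_zero (Finset.mem_range.2 hm) ?_
  simp

theorem FD.finite_fix (hK : IsCurve 𝕜 K) (S : FD 𝕜 K) : {v : Point 𝕜 K | S.pt v = v}.Finite := by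
  classical
  obtain ⟨t, ht, htc⟩ := S.exists_fixed hK
  have hroots : {a : 𝕜 | a ^ S.Q = a}.Finite := by
    have hne : (Polynomial.X ^ S.Q - Polynomial.X : 𝕜[X]) ≠ 0 :=
      FiniteField.X_pow_card_sub_X_ne_zero 𝕜 S.two_le_Q
    refine (Polynomial.X ^ S.Q - Polynomial.X : 𝕜[X]).roots.toFinset.finite_toSet.subset ?_
    intro a ha
    rw [Finset.mem_coe, Multiset.mem_toFinset, Polynomial.mem_roots hne]
    simp only [Polynomial.IsRoot.def, Polynomial.eval_sub, Polynomial.eval_pow, Polynomial.eval_X]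
    rw [show a ^ S.Q = a from ha, sub_self]
  refine ((finite_ord_neg hK t).union (hroots.biUnion fun a _ =>
    finite_ord_pos hK (t - algebraMap 𝕜 K a))).subset ?_
  intro v hv
  rw [Set.mem_ofPred_eq] at hv
  have ht0 : t ≠ 0 := by
    have := htc 0
    rwa [map_zero] at this
  rcases le_or_gt (v.val t) 1 with h | h
  · right
    obtain ⟨a, ha⟩ := exists_residue hK v h
    have h1 : v.val (t - algebraMap 𝕜 K (a ^ S.Q)) < 1 := by
      have h2 := S.pt_val v (t - algebraMap 𝕜 K a)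
      rw [hv, map_sub, ht, S.const'] at h2
      rw [h2]
      exact ha
    have h3 : a = a ^ S.Q := res_unique v ha h1
    rw [Set.mem_iUnion₂]
    refine ⟨a, h3.symm, ?_⟩
    rw [Set.mem_ofPred_eq, ← v.val_lt_one_iff (sub_ne_zero.2 (htc a))]
    exact ha
  · left
    exact (v.one_lt_val_iff ht0).1 h

theorem FD.finite_fix_pow (hK : IsCurve 𝕜 K) (S : FD 𝕜 K) (m : ℕ) (hm : 0 < m) :
    {v : Point 𝕜 K | (S.pt ^ m) v = v}.Finite := by
  have := (S.pow m hm).finite_fix hK
  rwa [S.pow_pt] at this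

theorem exists_pow_fix_aux {X : Type*} (f : Equiv.Perm X) (Z : Set X) (hZ : Z.Finite)
    (hf : ∀ x ∈ Z, f x ∈ Z) {v : X} (hv : v ∈ Z) : ∃ m : ℕ, 0 < m ∧ (f ^ m) v = v := by
  have hmem : ∀ m : ℕ, (f ^ m) v ∈ Z := by
    intro m
    induction m with
    | zero => simpa using hv
    | succ m ih => rw [pow_succ', Equiv.Perm.mul_apply]; exact hf _ ih
  have := hZ.to_subtype
  obtain ⟨i, j, hij, h⟩ := Finite.exists_ne_map_eq_of_infinite (fun m : ℕ => (⟨(f ^ m) v, hmem m⟩ : Z))
  have h' : (f ^ i) v = (f ^ j) v := congrArg Subtype.val h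
  wlog hlt : i < j generalizing i j
  · exact this j i hij.symm h.symm h'.symm (by omega)
  refine ⟨j - i, by omega, ?_⟩
  have h2 : (f ^ i) ((f ^ (j - i)) v) = (f ^ i) v := by
    rw [← Equiv.Perm.mul_apply, ← pow_add, show i + (j - i) = j by omega, h']
  exact (f ^ i).injective h2

theorem FD.exists_pow_fix (hK : IsCurve 𝕜 K) (S : FD 𝕜 K) (v : Point 𝕜 K) :
    ∃ m : ℕ, 0 < m ∧ (S.pt ^ m) v = v := by
  obtain ⟨t, ht, htc⟩ := S.exists_fixed hK
  have ht0 : t ≠ 0 := by
    have := htc 0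
    rwa [map_zero] at this
  rcases le_or_gt (v.val t) 1 with h | h
  · obtain ⟨a, ha⟩ := exists_residue hK v h
    obtain ⟨m, hm, hma⟩ := S.locFin (algebraMap 𝕜 K a)
    have hm1 : ∀ w : Point 𝕜 K, ((S.pt ^ m) w).val (t - algebraMap 𝕜 K a) =
        w.val (t - algebraMap 𝕜 K a) := by
      intro w
      have h1 := S.pt_pow_val m w (t - algebraMap 𝕜 K a)
      have h2 : (S.ψ ^ m) t = t := by
        have : ∀ i : ℕ, (S.ψ ^ i) t = t := by
          intro i
          induction i with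
          | zero => simp
          | succ i ih => rw [pow_succ', RingAut.mul_apply, ih, ht]
        exact this m
      rwa [map_sub, h2, hma] at h1
    obtain ⟨i, hi, hiv⟩ := exists_pow_fix_aux (S.pt ^ m) {w | 0 < w.ord (t - algebraMap 𝕜 K a)}
      (finite_ord_pos hK _) (fun w hw => by
        rw [Set.mem_ofPred_eq, ← Point.val_lt_one_iff _ (sub_ne_zero.2 (htc a))] at hw ⊢
        rwa [hm1]) (v := v) (by
        rw [Set.mem_ofPred_eq, ← v.val_lt_one_iff (sub_ne_zero.2 (htc a))]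
        exact ha)
    refine ⟨m * i, Nat.mul_pos hm hi, ?_⟩
    rw [pow_mul]
    exact hiv
  · refine exists_pow_fix_aux S.pt {w | w.ord t < 0} (finite_ord_neg hK t) (fun w hw => ?_) ?_
    · rw [Set.mem_ofPred_eq, ← Point.one_lt_val_iff _ ht0] at hw ⊢
      have := S.pt_val w t
      rw [ht] at this
      rwa [this]
    · exact (v.one_lt_val_iff ht0).1 h

end Pool.Agent.TH185
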