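import Pool.Agent.TH185.Final
import Pool.Agent.TH761.J381
import Pool.Agent.TH926.J382
import Pool.Agent.TH185.Frob

/-! Hecke correspondences for all Frobenius automorphisms. -/

open scoped WithZero Matrix

namespace Pool.Agent.TH185

open Pool.Agent.TH185.C

variable {𝕜 K : Type} [Field 𝕜] [IsAlgClosed 𝕜] [Field K] [Algebra 𝕜 K]

theorem hecke_all (hK : IsCurve 𝕜 K) (S : FD 𝕜 K) (k : ℕ) :
    ∃ H : ℤ → ℕ, (∀ j, j < 0 ∨ (k : ℤ) < j → H j = 0) ∧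
      ∀ G : Bundle 𝕜 K 2, Stable S.ψ G.stalk →
        {F : Fam 𝕜 K 2 | Stable S.ψ F ∧ (∀ v, F v ⊆ G.stalk v) ∧
          ∃ E : Bundle 𝕜 K 2, E.degree = G.degree - k ∧ F = E.stalk}.Finite ∧
        ∀ s : Fin 2 → K, s ≠ 0 → S.vec s = s → ∀ j : ℤ,
          {F : Fam 𝕜 K 2 | Stable S.ψ F ∧ (∀ v, F v ⊆ G.stalk v) ∧
            ∃ E : Bundle 𝕜 K 2, E.degree = G.degree - k ∧ F = E.stalk ∧
              vdeg E s = vdeg G s - j}.ncard = H j :=
  hecke hK S (fun m hm => S.finite_fix_pow hK m hm)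
    (fun G hG s hs h => exists_frames hK S (S.exists_pow_fix hK) G hG s hs h) k

end Pool.Agent.TH185
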