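import Pool.Agent.TH185.Tw
import Pool.Agent.TH13.J349

/-! Counting pairs of divisors and sections in two ways. -/

open scoped WithZero Matrix
open WithZero

set_option linter.unusedSectionVars false

namespace Pool.Agent.TH185

open Pool.Agent.TH185.C

section General

theorem ncard_prod {α β : Type*} {P : Set α} (hP : P.Finite) (R : α → Set β)
    (hR : ∀ a ∈ P, (R a).Finite) :
    {p : α × β | p.1 ∈ P ∧ p.2 ∈ R p.1}.Finite ∧
    {p : α × β | p.1 ∈ P ∧ p.2 ∈ R p.1}.ncard = ∑ a ∈ hP.toFinset, (R a).ncard := by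
  classical
  have h1 : {p : α × β | p.1 ∈ P ∧ p.2 ∈ R p.1} = ⋃ a ∈ P, (fun b => (a, b)) '' R a := by
    ext ⟨a, b⟩
    simp only [Set.mem_ofPred_eq, Set.mem_iUnion, Set.mem_image, Prod.mk.injEq, exists_prop]
    constructor
    · rintro ⟨h1, h2⟩
      exact ⟨a, h1, b, h2, rfl, rfl⟩
    · rintro ⟨a', h1, b', h2, rfl, rfl⟩
      exact ⟨h1, h2⟩
  have hfin : {p : α × β | p.1 ∈ P ∧ p.2 ∈ R p.1}.Finite := by
    rw [h1]
    exact hP.biUnion fun a ha => (hR a ha).image _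
  refine ⟨hfin, ?_⟩
  rw [Set.ncard_eq_toFinset_card _ hfin,
    Finset.card_eq_sum_card_fiberwise (f := Prod.fst) (t := hP.toFinset) (fun p hp => by
      rw [Finset.mem_coe, Set.Finite.mem_toFinset] at hp ⊢
      exact hp.1)]
  refine Finset.sum_congr rfl fun a ha => ?_
  rw [Set.Finite.mem_toFinset] at ha
  rw [Set.ncard_eq_toFinset_card _ (hR a ha)]
  refine Finset.card_bij' (fun p _ => p.2) (fun b _ => (a, b)) ?_ ?_ ?_ ?_
  · rintro ⟨a', b⟩ hp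
    rw [Finset.mem_filter, Set.Finite.mem_toFinset] at hp
    obtain ⟨h1, rfl⟩ := hp
    rw [Set.Finite.mem_toFinset]
    exact h1.2
  · intro b hb
    rw [Set.Finite.mem_toFinset] at hb
    rw [Finset.mem_filter, Set.Finite.mem_toFinset]
    exact ⟨⟨ha, hb⟩, rfl⟩
  · rintro ⟨a', b⟩ hp
    rw [Finset.mem_filter] at hp
    obtain ⟨-, rfl⟩ := hp
    rfl
  · intro b hb
    rfl

end General

variable {𝕜 K : Type} [Field 𝕜] [IsAlgClosed 𝕜] [Field K] [Algebra 𝕜 K] {n : ℕ}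

/-! ### fixed vectors -/

theorem FD.pow_fix (S : FD 𝕜 K) {x : K} {m : ℕ} (h : (S.ψ ^ m) x = x) (i : ℕ) :
    (S.ψ ^ (m * i)) x = x := by
  rw [pow_mul]
  induction i with
  | zero => simp
  | succ i ih => rw [pow_succ', RingAut.mul_apply, ih, h]

theorem FD.fix_card (S : FD 𝕜 K) (V : Submodule 𝕜 (Fin n → K)) [FiniteDimensional 𝕜 V]
    (hV : ∀ s ∈ V, S.vec s ∈ V) :
    {s | s ∈ V ∧ S.vec s = s}.Finite ∧
      {s | s ∈ V ∧ S.vec s = s}.ncard = S.Q ^ Module.finrank 𝕜 V := by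
  haveI := Fact.mk S.prime
  haveI := S.char
  let σ : V →+ V :=
    { toFun := fun s => ⟨S.vec s.1, hV _ s.2⟩
      map_zero' := Subtype.ext S.vec_zero
      map_add' := fun a b => Subtype.ext (S.vec_add _ _) }
  have hiter : ∀ (m : ℕ) (s : V) (i : Fin n), (σ^[m] s).1 i = (S.ψ ^ m) (s.1 i) := by
    intro m
    induction m with
    | zero => intro s i; simp
    | succ m ih =>
      intro s i
      rw [Function.iterate_succ_apply', pow_succ', RingAut.mul_apply, ← ih]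
      rfl
  obtain ⟨h1, h2, -⟩ := semilinear (𝕜 := 𝕜) (V := V) S.p S.e S.epos σ (by
    intro c s
    apply Subtype.ext
    funext i
    change S.ψ (c • s.1 i) = c ^ (S.p ^ S.e) • S.ψ (s.1 i)
    rw [Algebra.smul_def, map_mul, S.const, Algebra.smul_def]) (by
    intro s
    choose m hm hms using fun i => S.locFin (s.1 i)
    refine ⟨∏ i, m i, Finset.prod_pos fun i _ => hm i, ?_⟩
    apply Subtype.ext
    funext i
    rw [hiter, ← Finset.mul_prod_erase _ _ (Finset.mem_univ i)]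
    exact S.pow_fix (hms i) _)
  have h3 : {s | s ∈ V ∧ S.vec s = s} = Subtype.val '' {s : V | σ s = s} := by
    ext s
    simp only [Set.mem_ofPred_eq, Set.mem_image, Subtype.exists, exists_and_right, exists_eq_right]
    constructor
    · rintro ⟨hs, h⟩
      exact ⟨hs, Subtype.ext h⟩
    · rintro ⟨hs, h⟩
      exact ⟨hs, congrArg Subtype.val h⟩
  rw [h3]
  refine ⟨h1.image _, ?_⟩
  rw [Set.ncard_image_of_injective _ Subtype.val_injective, h2]
  rfl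

theorem FD.fix_card_one (S : FD 𝕜 K) (V : Submodule 𝕜 K) [FiniteDimensional 𝕜 V]
    (hV : ∀ s ∈ V, S.ψ s ∈ V) :
    {s | s ∈ V ∧ S.ψ s = s}.Finite ∧
      {s | s ∈ V ∧ S.ψ s = s}.ncard = S.Q ^ Module.finrank 𝕜 V := by
  haveI := Fact.mk S.prime
  haveI := S.char
  let σ : V →+ V :=
    { toFun := fun s => ⟨S.ψ s.1, hV _ s.2⟩
      map_zero' := Subtype.ext (map_zero _)
      map_add' := fun a b => Subtype.ext (map_add _ _ _) }
  have hiter : ∀ (m : ℕ) (s : V), (σ^[m] s).1 = (S.ψ ^ m) s.1 := by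
    intro m
    induction m with
    | zero => intro s; simp
    | succ m ih =>
      intro s
      rw [Function.iterate_succ_apply', pow_succ', RingAut.mul_apply, ← ih]
      rfl
  obtain ⟨h1, h2, -⟩ := semilinear (𝕜 := 𝕜) (V := V) S.p S.e S.epos σ (by
    intro c s
    apply Subtype.ext
    change S.ψ (c • s.1) = c ^ (S.p ^ S.e) • S.ψ s.1
    rw [Algebra.smul_def, map_mul, S.const, Algebra.smul_def]) (by
    intro s
    obtain ⟨m, hm, hms⟩ := S.locFin s.1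
    refine ⟨m, hm, ?_⟩
    apply Subtype.ext
    rw [hiter, hms])
  have h3 : {s | s ∈ V ∧ S.ψ s = s} = Subtype.val '' {s : V | σ s = s} := by
    ext s
    simp only [Set.mem_ofPred_eq, Set.mem_image, Subtype.exists, exists_and_right, exists_eq_right]
    constructor
    · rintro ⟨hs, h⟩
      exact ⟨hs, Subtype.ext h⟩
    · rintro ⟨hs, h⟩
      exact ⟨hs, congrArg Subtype.val h⟩
  rw [h3]
  refine ⟨h1.image _, ?_⟩
  rw [Set.ncard_image_of_injective _ Subtype.val_injective, h2]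
  rfl

/-! ### normalized vectors -/

theorem exists_lead {s : Fin n → K} (hs : s ≠ 0) : ∃ i, s i ≠ 0 ∧ ∀ j < i, s j = 0 := by
  obtain ⟨i, hi⟩ := Function.ne_iff.1 hs
  rw [Pi.zero_apply] at hi
  induction i using WellFoundedLT.induction with
  | ind i ih =>
    by_cases h : ∀ j < i, s j = 0
    · exact ⟨i, hi, h⟩
    · push Not at h
      obtain ⟨j, hj, hj'⟩ := h
      exact ih j hj hj'

open Classical in
/-- the first nonzero coordinate -/
noncomputable def lead (s : Fin n → K) : K := if hs : s ≠ 0 then s (exists_lead hs).choose else 0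

theorem lead_eq {s : Fin n → K} {i : Fin n} (hi : s i ≠ 0) (h : ∀ j < i, s j = 0) :
    lead s = s i := by
  have hs : s ≠ 0 := fun h0 => hi (by rw [h0]; rfl)
  rw [lead, dif_pos hs]
  obtain ⟨h1, h2⟩ := (exists_lead hs).choose_spec
  set i' := (exists_lead hs).choose
  rcases lt_trichotomy i i' with hlt | heq | hlt
  · exact absurd (h2 i hlt) hi
  · rw [heq]
  · exact absurd (h i' hlt) h1

theorem lead_ne_zero {s : Fin n → K} (hs : s ≠ 0) : lead s ≠ 0 := by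
  obtain ⟨i, hi, h⟩ := exists_lead hs
  rw [lead_eq hi h]
  exact hi

theorem isNorm_lead {s : Fin n → K} (hs : s ≠ 0) : IsNorm ((lead s)⁻¹ • s) := by
  obtain ⟨i, hi, h⟩ := exists_lead hs
  rw [lead_eq hi h]
  refine ⟨i, ?_, fun j hj => ?_⟩
  · rw [Pi.smul_apply, smul_eq_mul, inv_mul_cancel₀ hi]
  · rw [Pi.smul_apply, h j hj, smul_zero]

theorem IsNorm.ne_zero {s : Fin n → K} (hs : IsNorm s) : s ≠ 0 := by
  obtain ⟨i, hi, -⟩ := hs
  intro h
  rw [h] at hi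
  exact zero_ne_one hi

theorem lead_smul {s : Fin n → K} (hs : IsNorm s) {f : K} (hf : f ≠ 0) : lead (f • s) = f := by
  obtain ⟨i, hi, h⟩ := hs
  rw [lead_eq (s := f • s) (i := i)]
  · rw [Pi.smul_apply, hi, smul_eq_mul, mul_one]
  · rw [Pi.smul_apply, hi, smul_eq_mul, mul_one]
    exact hf
  · intro j hj
    rw [Pi.smul_apply, h j hj, smul_zero]

theorem lead_fixed (S : FD 𝕜 K) {s : Fin n → K} (hs : s ≠ 0) (h : S.vec s = s) :
    S.ψ (lead s) = lead s := by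
  obtain ⟨i, hi, h1⟩ := exists_lead hs
  rw [lead_eq hi h1]
  exact congrFun h i

/-! ### divisors -/

/-- the divisor of a vector (`0` for the zero vector) -/
noncomputable def vd (hK : IsCurve 𝕜 K) (E : Bundle 𝕜 K n) (s : Fin n → K) : Point 𝕜 K →₀ ℤ :=
  Finsupp.ofSupportFinite (fun v => vord E v s) (by
    rcases eq_or_ne s 0 with rfl | hs
    · convert Set.finite_empty
      ext v
      simp [vord, nval_zero]
    · exact vord_finite hK E hs)

theorem vd_apply (hK : IsCurve 𝕜 K) (E : Bundle 𝕜 K n) (s : Fin n → K) (v : Point 𝕜 K) :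
    vd hK E s v = vord E v s := rfl

theorem vd_degree (hK : IsCurve 𝕜 K) (E : Bundle 𝕜 K n) (s : Fin n → K) :
    (vd hK E s).degree = vdeg E s := degree_eq_finsum _

/-- a divisor with natural coefficients as a divisor -/
noncomputable def zd (D : Point 𝕜 K →₀ ℕ) : Point 𝕜 K →₀ ℤ :=
  Finsupp.mapRange (Nat.cast : ℕ → ℤ) Nat.cast_zero D

theorem zd_apply (D : Point 𝕜 K →₀ ℕ) (v : Point 𝕜 K) : zd D v = D v := rfl

theorem zd_degree (D : Point 𝕜 K →₀ ℕ) : (zd D).degree = D.degree := by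
  rw [degree_eq_finsum, Finsupp.degree_apply, Nat.cast_sum,
    finsum_eq_sum_of_support_subset (s := D.support)]
  · exact Finset.sum_congr rfl fun v _ => zd_apply D v
  · intro v hv
    rw [Function.mem_support, zd_apply] at hv
    rw [Finset.mem_coe, Finsupp.mem_support_iff]
    exact_mod_cast hv

/-- the positive part -/
noncomputable def nd (D : Point 𝕜 K →₀ ℤ) : Point 𝕜 K →₀ ℕ := D.mapRange Int.toNat rfl

theorem nd_apply (D : Point 𝕜 K →₀ ℤ) (v : Point 𝕜 K) : nd D v = (D v).toNat := rfl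

theorem zd_nd {D : Point 𝕜 K →₀ ℤ} (h : ∀ v, 0 ≤ D v) : zd (nd D) = D := by
  ext v
  rw [zd_apply, nd_apply, Int.toNat_of_nonneg (h v)]

theorem nd_zd (D : Point 𝕜 K →₀ ℕ) : nd (zd D) = D := by
  ext v
  rw [nd_apply, zd_apply, Int.toNat_natCast]

theorem mapDomain_pt_iff (S : FD 𝕜 K) {M : Type*} [AddCommMonoid M] (D : Point 𝕜 K →₀ M) :
    D.mapDomain S.pt = D ↔ ∀ v, D (S.pt v) = D v := by
  constructor
  · intro h v
    conv_lhs => rw [← h]
    exact Finsupp.mapDomain_apply S.pt.injective D v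
  · intro h
    ext v
    obtain ⟨w, rfl⟩ := S.pt.surjective v
    rw [Finsupp.mapDomain_apply S.pt.injective, h]

theorem ND_finite (hK : IsCurve 𝕜 K) (S : FD 𝕜 K) (j : ℤ) :
    {D : Point 𝕜 K →₀ ℕ | (D.degree : ℤ) = j ∧ D.mapDomain S.pt = D}.Finite := by
  refine (finite_stable S.pt (S.finite_fix_pow hK) j.toNat).subset ?_
  rintro D ⟨h1, h2⟩
  exact ⟨by omega, h2⟩

theorem vord_pt (S : FD 𝕜 K) {E : Bundle 𝕜 K n} (hE : Stable S.ψ E.stalk) {s : Fin n → K}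
    (hs : S.vec s = s) (v : Point 𝕜 K) : vord E (S.pt v) s = vord E v s := by
  rw [vord, vord]
  conv_lhs => rw [← hs, nval_pt S hE]

theorem ord_pt (S : FD 𝕜 K) {f : K} (hf : S.ψ f = f) (v : Point 𝕜 K) :
    (S.pt v).ord f = v.ord f := by
  rw [Point.ord, Point.ord]
  conv_lhs => rw [← hf, S.pt_val]

theorem secs_stable (S : FD 𝕜 K) {E : Bundle 𝕜 K n} (hE : Stable S.ψ E.stalk)
    {C : Point 𝕜 K →₀ ℤ} (hC : ∀ v, C (S.pt v) = C v) (s : Fin n → K) (hs : s ∈ secs E C) :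
    S.vec s ∈ secs E C := by
  rw [mem_secs] at hs ⊢
  intro v
  obtain ⟨w, rfl⟩ := S.pt.surjective v
  rw [nval_pt S hE, hC]
  exact hs w

theorem H0_stable (S : FD 𝕜 K) {C : Point 𝕜 K →₀ ℤ} (hC : ∀ v, C (S.pt v) = C v) (s : K)
    (hs : s ∈ H0 (ofDiv C)) : S.ψ s ∈ H0 (ofDiv C) := by
  rw [mem_H0_ofDiv] at hs ⊢
  intro v
  obtain ⟨w, rfl⟩ := S.pt.surjective v
  rw [S.pt_val, hC]
  exact hs w

/-- the pairs (saturated line subbundle, effective divisor) which correspond to the line subsheaves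
of degree `a` -/
def PS (S : FD 𝕜 K) (E : Bundle 𝕜 K n) (a : ℤ) : Set ((Fin n → K) × (Point 𝕜 K →₀ ℕ)) :=
  {x | IsNorm x.1 ∧ S.vec x.1 = x.1 ∧ x.2.mapDomain S.pt = x.2 ∧ vdeg E x.1 = a + x.2.degree}

/-- the number of line subsheaves of degree `a` -/
noncomputable def PA (S : FD 𝕜 K) (E : Bundle 𝕜 K n) (a : ℤ) : ℕ := (PS S E a).ncard

section Main

variable (hK : IsCurve 𝕜 K) (hg : genus 𝕜 K ≠ 0) (S : FD 𝕜 K) {E : Bundle 𝕜 K n}
  (hE : Stable S.ψ E.stalk) {B : Point 𝕜 K →₀ ℤ} (hB : ∀ v, B (S.pt v) = B v) {ε : ℤ}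
  (hε : ε * ε = 1) {N : ℕ} (hN : 2 * (genus 𝕜 K : ℤ) - 2 < N) {a : ℤ} (ha : a = ε * (B.degree - N))

/-- the pairs of a divisor and a section -/
def S1 (S : FD 𝕜 K) (E : Bundle 𝕜 K n) (B : Point 𝕜 K →₀ ℤ) (ε : ℤ) (N : ℕ) :
    Set ((Point 𝕜 K →₀ ℕ) × (Fin n → K)) :=
  {p | p.1 ∈ {D : Point 𝕜 K →₀ ℕ | (D.degree : ℤ) = N ∧ D.mapDomain S.pt = D} ∧
    p.2 ∈ {s | s ≠ 0 ∧ S.vec s = s ∧ s ∈ secs E (ε • (zd p.1 - B))}}

/-- the other description of the same set -/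
def T1 (hK : IsCurve 𝕜 K) (S : FD 𝕜 K) (E : Bundle 𝕜 K n) (B : Point 𝕜 K →₀ ℤ) (ε a : ℤ) :
    Set (((Fin n → K) × (Point 𝕜 K →₀ ℕ)) × K) :=
  {p | p.1 ∈ PS S E a ∧ p.2 ∈ {h | h ≠ 0 ∧ S.ψ h = h ∧
    h ∈ H0 (ofDiv (B + ε • (zd p.1.2 - vd hK E p.1.1)))}}

/-- the map from `S1` to `T1` -/
noncomputable def fwd (hK : IsCurve 𝕜 K) (E : Bundle 𝕜 K n) (B : Point 𝕜 K →₀ ℤ) (ε : ℤ)
    (p : (Point 𝕜 K →₀ ℕ) × (Fin n → K)) : ((Fin n → K) × (Point 𝕜 K →₀ ℕ)) × K :=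
  (((lead p.2)⁻¹ • p.2, nd (vd hK E p.2 + ε • (zd p.1 - B))), (lead p.2) ^ (-ε))

/-- the map from `T1` to `S1` -/
noncomputable def bwd (hK : IsCurve 𝕜 K) (E : Bundle 𝕜 K n) (B : Point 𝕜 K →₀ ℤ) (ε : ℤ)
    (p : ((Fin n → K) × (Point 𝕜 K →₀ ℕ)) × K) : (Point 𝕜 K →₀ ℕ) × (Fin n → K) :=
  (nd (B + ε • (zd p.1.2 - vd hK E (p.2 ^ (-ε) • p.1.1))), p.2 ^ (-ε) • p.1.1)

theorem ord_zpow (v : Point 𝕜 K) {f : K} (hf : f ≠ 0) (m : ℤ) : v.ord (f ^ m) = m * v.ord f := by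
  rw [Point.ord, map_zpow₀, log_zpow, Point.ord]
  simp

include hE hB hε ha

theorem fwd_mem {p : (Point 𝕜 K →₀ ℕ) × (Fin n → K)} (hp : p ∈ S1 S E B ε N) :
    fwd hK E B ε p ∈ T1 hK S E B ε a := by
  obtain ⟨D, s⟩ := p
  obtain ⟨⟨h1, h2⟩, h3, h4, h5⟩ := hp
  dsimp only at h1 h2 h3 h4 h5
  rw [mem_secs' E _ h3] at h5
  have hl := lead_ne_zero h3
  have hlf := lead_fixed S h3 h4
  have hnn : ∀ v, 0 ≤ (vd hK E s + ε • (zd D - B)) v := fun v => h5 v
  have hsmul : ∀ v, vord E v ((lead s)⁻¹ • s) = vord E v s - v.ord (lead s) := by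
    intro v
    rw [vord_smul E v (inv_ne_zero hl) h3, v.ord_inv]
    ring
  refine ⟨⟨isNorm_lead h3, ?_, ?_, ?_⟩, zpow_ne_zero _ hl, ?_, ?_⟩
  · change S.vec ((lead s)⁻¹ • s) = (lead s)⁻¹ • s
    rw [S.vec_smul, map_inv₀, hlf, h4]
  · change (nd (vd hK E s + ε • (zd D - B))).mapDomain S.pt = nd (vd hK E s + ε • (zd D - B))
    rw [mapDomain_pt_iff] at h2 ⊢
    intro v
    rw [nd_apply, nd_apply]
    simp only [Finsupp.add_apply, Finsupp.smul_apply, Finsupp.sub_apply, vd_apply, zd_apply, h2,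
      hB, vord_pt S hE h4]
  · change vdeg E ((lead s)⁻¹ • s) = a + (nd (vd hK E s + ε • (zd D - B))).degree
    rw [vdeg_smul hK E (inv_ne_zero hl) h3, ← zd_degree, zd_nd hnn, map_add, vd_degree, map_zsmul,
      map_sub, zd_degree, h1, ha, smul_eq_mul]
    ring
  · change S.ψ ((lead s) ^ (-ε)) = (lead s) ^ (-ε)
    rw [map_zpow₀, hlf]
  · change (lead s) ^ (-ε) ∈ H0 (ofDiv (B + ε • (zd (nd (vd hK E s + ε • (zd D - B))) -
      vd hK E ((lead s)⁻¹ • s))))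
    rw [mem_H0_ofDiv' _ (zpow_ne_zero _ hl), zd_nd hnn]
    intro v
    rw [ord_zpow v hl]
    simp only [Finsupp.add_apply, Finsupp.smul_apply, Finsupp.sub_apply, vd_apply, zd_apply,
      smul_eq_mul, hsmul]
    have h6 : -ε * v.ord (lead s) + (B v + ε * (vord E v s + ε * ((D v : ℤ) - B v) -
        (vord E v s - v.ord (lead s)))) = B v + (ε * ε) * ((D v : ℤ) - B v) := by ring
    rw [h6, hε]
    have := Int.natCast_nonneg (D v)
    linarith

theorem bwd_mem {p : ((Fin n → K) × (Point 𝕜 K →₀ ℕ)) × K} (hp : p ∈ T1 hK S E B ε a) :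
    bwd hK E B ε p ∈ S1 S E B ε N := by
  obtain ⟨⟨s, D⟩, h⟩ := p
  obtain ⟨⟨h1, h2, h3, h4⟩, h5, h6, h7⟩ := hp
  dsimp only at h1 h2 h3 h4 h5 h6 h7
  have hs := h1.ne_zero
  rw [mem_H0_ofDiv' _ h5] at h7
  have hf : h ^ (-ε) ≠ 0 := zpow_ne_zero _ h5
  have hff : S.ψ (h ^ (-ε)) = h ^ (-ε) := by rw [map_zpow₀, h6]
  have hfs : h ^ (-ε) • s ≠ 0 := smul_ne_zero hf hs
  have hvec : S.vec (h ^ (-ε) • s) = h ^ (-ε) • s := by rw [S.vec_smul, hff, h2]
  have hsmul : ∀ v, vord E v (h ^ (-ε) • s) = vord E v s - ε * v.ord h := by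
    intro v
    rw [vord_smul E v hf hs, ord_zpow v h5]
    ring
  have hnn : ∀ v, 0 ≤ (B + ε • (zd D - vd hK E (h ^ (-ε) • s))) v := by
    intro v
    have h8 := h7 v
    simp only [Finsupp.add_apply, Finsupp.smul_apply, Finsupp.sub_apply, vd_apply, zd_apply,
      smul_eq_mul, hsmul] at h8 ⊢
    have h9 : B v + ε * ((D v : ℤ) - (vord E v s - ε * v.ord h)) =
        (ε * ε) * v.ord h + (B v + ε * ((D v : ℤ) - vord E v s)) := by ring
    rw [h9, hε, one_mul]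
    exact h8
  refine ⟨⟨?_, ?_⟩, hfs, hvec, ?_⟩
  · change (((nd (B + ε • (zd D - vd hK E (h ^ (-ε) • s)))).degree : ℕ) : ℤ) = N
    rw [← zd_degree, zd_nd hnn, map_add, map_zsmul, map_sub, zd_degree, vd_degree,
      vdeg_smul hK E hf hs, h4, ha, smul_eq_mul]
    have : B.degree + ε * ((D.degree : ℤ) - (ε * (B.degree - N) + D.degree)) =
      B.degree - (ε * ε) * (B.degree - N) := by ring
    rw [this, hε]
    ring
  · change (nd (B + ε • (zd D - vd hK E (h ^ (-ε) • s)))).mapDomain S.pt =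
      nd (B + ε • (zd D - vd hK E (h ^ (-ε) • s)))
    rw [mapDomain_pt_iff] at h3 ⊢
    intro v
    rw [nd_apply, nd_apply]
    simp only [Finsupp.add_apply, Finsupp.smul_apply, Finsupp.sub_apply, vd_apply, zd_apply, h3,
      hB, vord_pt S hE hvec]
  · change h ^ (-ε) • s ∈ secs E (ε • (zd (nd (B + ε • (zd D - vd hK E (h ^ (-ε) • s)))) - B))
    rw [mem_secs' E _ hfs, zd_nd hnn]
    intro v
    simp only [Finsupp.add_apply, Finsupp.smul_apply, Finsupp.sub_apply, vd_apply, zd_apply,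
      smul_eq_mul]
    have : vord E v (h ^ (-ε) • s) + ε * (B v + ε * ((D v : ℤ) - vord E v (h ^ (-ε) • s)) - B v) =
      vord E v (h ^ (-ε) • s) + (ε * ε) * ((D v : ℤ) - vord E v (h ^ (-ε) • s)) := by ring
    rw [this, hε]
    have := Int.natCast_nonneg (D v)
    linarith

theorem bwd_fwd {p : (Point 𝕜 K →₀ ℕ) × (Fin n → K)} (hp : p ∈ S1 S E B ε N) :
    bwd hK E B ε (fwd hK E B ε p) = p := by
  obtain ⟨D, s⟩ := p
  obtain ⟨⟨h1, h2⟩, h3, h4, h5⟩ := hp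
  dsimp only at h1 h2 h3 h4 h5
  rw [mem_secs' E _ h3] at h5
  have hl := lead_ne_zero h3
  have hnn : ∀ v, 0 ≤ (vd hK E s + ε • (zd D - B)) v := fun v => h5 v
  have h6 : ((lead s) ^ (-ε)) ^ (-ε) = lead s := by
    rw [← zpow_mul, neg_mul_neg, hε, zpow_one]
  have h7 : ((lead s) ^ (-ε)) ^ (-ε) • ((lead s)⁻¹ • s) = s := by
    rw [h6, smul_smul, mul_inv_cancel₀ hl, one_smul]
  refine Prod.ext ?_ h7
  change nd (B + ε • (zd (nd (vd hK E s + ε • (zd D - B))) -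
    vd hK E (((lead s) ^ (-ε)) ^ (-ε) • ((lead s)⁻¹ • s)))) = D
  rw [h7, zd_nd hnn]
  have h8 : B + ε • (vd hK E s + ε • (zd D - B) - vd hK E s) = zd D := by
    rw [add_sub_cancel_left, smul_smul, hε, one_smul]
    abel
  rw [h8, nd_zd]

theorem fwd_bwd {p : ((Fin n → K) × (Point 𝕜 K →₀ ℕ)) × K} (hp : p ∈ T1 hK S E B ε a) :
    fwd hK E B ε (bwd hK E B ε p) = p := by
  obtain ⟨⟨s, D⟩, h⟩ := p
  obtain ⟨⟨h1, h2, h3, h4⟩, h5, h6, h7⟩ := hp
  dsimp only at h1 h2 h3 h4 h5 h6 h7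
  have hs := h1.ne_zero
  rw [mem_H0_ofDiv' _ h5] at h7
  have hf : h ^ (-ε) ≠ 0 := zpow_ne_zero _ h5
  have hsmul : ∀ v, vord E v (h ^ (-ε) • s) = vord E v s - ε * v.ord h := by
    intro v
    rw [vord_smul E v hf hs, ord_zpow v h5]
    ring
  have hnn : ∀ v, 0 ≤ (B + ε • (zd D - vd hK E (h ^ (-ε) • s))) v := by
    intro v
    have h8 := h7 v
    simp only [Finsupp.add_apply, Finsupp.smul_apply, Finsupp.sub_apply, vd_apply, zd_apply,
      smul_eq_mul, hsmul] at h8 ⊢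
    have h9 : B v + ε * ((D v : ℤ) - (vord E v s - ε * v.ord h)) =
        (ε * ε) * v.ord h + (B v + ε * ((D v : ℤ) - vord E v s)) := by ring
    rw [h9, hε, one_mul]
    exact h8
  have hlead : lead (h ^ (-ε) • s) = h ^ (-ε) := lead_smul h1 hf
  refine Prod.ext (Prod.ext ?_ ?_) ?_
  · change (lead (h ^ (-ε) • s))⁻¹ • (h ^ (-ε) • s) = s
    rw [hlead, smul_smul, inv_mul_cancel₀ hf, one_smul]
  · change nd (vd hK E (h ^ (-ε) • s) +
      ε • (zd (nd (B + ε • (zd D - vd hK E (h ^ (-ε) • s)))) - B)) = D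
    rw [zd_nd hnn]
    have h8 : vd hK E (h ^ (-ε) • s) + ε • (B + ε • (zd D - vd hK E (h ^ (-ε) • s)) - B) = zd D := by
      rw [add_sub_cancel_left, smul_smul, hε, one_smul]
      abel
    rw [h8, nd_zd]
  · change (lead (h ^ (-ε) • s)) ^ (-ε) = h
    rw [hlead, ← zpow_mul, neg_mul_neg, hε, zpow_one]

include hK hg

omit hE ha in
theorem S1_count (hE : Stable S.ψ E.stalk) : (S1 S E B ε N).Finite ∧
    (S1 S E B ε N).ncard = ∑ D ∈ (ND_finite hK S N).toFinset,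
      (S.Q ^ Module.finrank 𝕜 (secs E (ε • (zd D - B))) - 1) := by
  have key : ∀ D ∈ {D : Point 𝕜 K →₀ ℕ | (D.degree : ℤ) = N ∧ D.mapDomain S.pt = D},
      {s | s ≠ 0 ∧ S.vec s = s ∧ s ∈ secs E (ε • (zd D - B))}.Finite ∧
      {s | s ≠ 0 ∧ S.vec s = s ∧ s ∈ secs E (ε • (zd D - B))}.ncard =
        S.Q ^ Module.finrank 𝕜 (secs E (ε • (zd D - B))) - 1 := by
    rintro D ⟨-, hD⟩
    rw [mapDomain_pt_iff] at hD
    haveI := secs_finite hK hg E (ε • (zd D - B))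
    obtain ⟨h1, h2⟩ := S.fix_card (secs E (ε • (zd D - B))) (secs_stable S hE (fun v => by
      simp only [Finsupp.smul_apply, Finsupp.sub_apply, zd_apply, hD, hB]))
    have h3 : {s | s ≠ 0 ∧ S.vec s = s ∧ s ∈ secs E (ε • (zd D - B))} =
        {s | s ∈ secs E (ε • (zd D - B)) ∧ S.vec s = s} \ {0} := by
      ext s
      simp only [Set.mem_ofPred_eq, Set.mem_sdiff, Set.mem_singleton_iff]
      tauto
    rw [h3]
    refine ⟨h1.subset Set.diff_subset, ?_⟩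
    rw [Set.ncard_sdiff_singleton_of_mem (show (0 : Fin n → K) ∈ {s | s ∈ secs E (ε • (zd D - B)) ∧
      S.vec s = s} from ⟨zero_mem _, S.vec_zero⟩), h2]
  obtain ⟨h1, h2⟩ := ncard_prod (ND_finite hK S N)
    (fun D => {s : Fin n → K | s ≠ 0 ∧ S.vec s = s ∧ s ∈ secs E (ε • (zd D - B))})
    (fun D hD => (key D hD).1)
  refine ⟨h1, ?_⟩
  have h3 : (S1 S E B ε N).ncard = _ := h2
  rw [h3]
  refine Finset.sum_congr rfl fun D hD => (key D ?_).2
  rwa [Set.Finite.mem_toFinset] at hD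

theorem Y_count (hN : 2 * (genus 𝕜 K : ℤ) - 2 < N) {x : (Fin n → K) × (Point 𝕜 K →₀ ℕ)}
    (hx : x ∈ PS S E a) :
    {h | h ≠ 0 ∧ S.ψ h = h ∧ h ∈ H0 (ofDiv (B + ε • (zd x.2 - vd hK E x.1)))}.Finite ∧
    {h | h ≠ 0 ∧ S.ψ h = h ∧ h ∈ H0 (ofDiv (B + ε • (zd x.2 - vd hK E x.1)))}.ncard =
      S.Q ^ (N + 1 - genus 𝕜 K) - 1 := by
  obtain ⟨h1, h2, h3, h4⟩ := hx
  rw [mapDomain_pt_iff] at h3
  haveI := H0_finite' hK hg (B + ε • (zd x.2 - vd hK E x.1))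
  obtain ⟨h5, h6⟩ := S.fix_card_one (H0 (ofDiv (B + ε • (zd x.2 - vd hK E x.1))))
    (H0_stable S (fun v => by
      simp only [Finsupp.add_apply, Finsupp.smul_apply, Finsupp.sub_apply, zd_apply, vd_apply, h3,
        hB, vord_pt S hE h2]))
  have h7 : (B + ε • (zd x.2 - vd hK E x.1)).degree = N := by
    rw [map_add, map_zsmul, map_sub, zd_degree, vd_degree, h4, ha, smul_eq_mul]
    have : B.degree + ε * ((x.2.degree : ℤ) - (ε * (B.degree - N) + x.2.degree)) =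
      B.degree - (ε * ε) * (B.degree - N) := by ring
    rw [this, hε]
    ring
  have h8 := finrank_large hK hg (B + ε • (zd x.2 - vd hK E x.1)) (by rw [h7]; exact hN)
  rw [h7] at h8
  have h9 : Module.finrank 𝕜 (H0 (ofDiv (B + ε • (zd x.2 - vd hK E x.1)))) =
      N + 1 - genus 𝕜 K := by omega
  have h3 : {h | h ≠ 0 ∧ S.ψ h = h ∧ h ∈ H0 (ofDiv (B + ε • (zd x.2 - vd hK E x.1)))} =
      {s | s ∈ H0 (ofDiv (B + ε • (zd x.2 - vd hK E x.1))) ∧ S.ψ s = s} \ {0} := by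
    ext s
    simp only [Set.mem_ofPred_eq, Set.mem_sdiff, Set.mem_singleton_iff]
    tauto
  rw [h3]
  refine ⟨h5.subset Set.diff_subset, ?_⟩
  rw [Set.ncard_sdiff_singleton_of_mem (show (0 : K) ∈ {s | s ∈ H0 (ofDiv (B + ε • (zd x.2 -
    vd hK E x.1))) ∧ S.ψ s = s} from ⟨zero_mem _, map_zero _⟩), h6, h9]

omit hK hE hB hε ha in
theorem Q_pow_pos' (hN : 2 * (genus 𝕜 K : ℤ) - 2 < N) : 0 < S.Q ^ (N + 1 - genus 𝕜 K) - 1 := by
  have h1 := S.two_le_Q
  have h2 : 0 < genus 𝕜 K := Nat.pos_of_ne_zero hg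
  have h3 : S.Q ^ 1 ≤ S.Q ^ (N + 1 - genus 𝕜 K) := Nat.pow_le_pow_right S.Q_pos (by omega)
  rw [pow_one] at h3
  omega

theorem PS_finite (hN : 2 * (genus 𝕜 K : ℤ) - 2 < N) : (PS S E a).Finite := by
  refine ((S1_count (N := N) hK hg S hB hε hE).1.image fun p => (fwd hK E B ε p).1).subset ?_
  intro x hx
  obtain ⟨h1, h2⟩ := Y_count hK hg S hE hB hε ha hN hx
  have h3 := Q_pow_pos' hg S hN
  rw [← h2] at h3
  obtain ⟨h, hh⟩ := (Set.ncard_pos h1).1 h3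
  have h4 : (x, h) ∈ T1 hK S E B ε a := ⟨hx, hh⟩
  exact ⟨_, bwd_mem (N := N) hK S hE hB hε ha h4, by
    dsimp only
    rw [fwd_bwd (N := N) hK S hE hB hε ha h4]⟩

/-- counting in two ways -/
theorem main_count (hN : 2 * (genus 𝕜 K : ℤ) - 2 < N) :
    ∑ D ∈ (ND_finite hK S N).toFinset, (S.Q ^ Module.finrank 𝕜 (secs E (ε • (zd D - B))) - 1) =
      PA S E a * (S.Q ^ (N + 1 - genus 𝕜 K) - 1) := by
  obtain ⟨h1, h2⟩ := S1_count (N := N) hK hg S hB hε hE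
  have hfin := PS_finite hK hg S hE hB hε ha hN
  obtain ⟨h3, h4⟩ := ncard_prod hfin
    (fun x => {h : K | h ≠ 0 ∧ S.ψ h = h ∧ h ∈ H0 (ofDiv (B + ε • (zd x.2 - vd hK E x.1)))})
    (fun x hx => (Y_count hK hg S hE hB hε ha hN hx).1)
  have h5 : (T1 hK S E B ε a).ncard = _ := h4
  rw [Finset.sum_congr rfl fun x hx => (Y_count hK hg S hE hB hε ha hN (by
    rwa [Set.Finite.mem_toFinset] at hx)).2, Finset.sum_const, smul_eq_mul,
    ← Set.ncard_eq_toFinset_card _ hfin] at h5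
  rw [← h2, PA, ← h5]
  refine Set.ncard_congr (fun p _ => fwd hK E B ε p) ?_ ?_ ?_
  · intro p hp
    exact fwd_mem hK S hE hB hε ha hp
  · intro p p' hp hp' h
    rw [← bwd_fwd hK S hE hB hε ha hp, ← bwd_fwd hK S hE hB hε ha hp', h]
  · intro x hx
    exact ⟨_, bwd_mem (N := N) hK S hE hB hε ha hx, fwd_bwd (N := N) hK S hE hB hε ha hx⟩

end Main

end Pool.Agent.TH185
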