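import Pool.Agent.TH185.Ident

/-! Line subbundles: finiteness, degree bounds, direct sums of line bundles. -/

open scoped WithZero Matrix
open WithZero

set_option linter.unusedSectionVars false

namespace Pool.Agent.TH185

open Pool.Agent.TH185.C

variable {𝕜 K : Type} [Field 𝕜] [IsAlgClosed 𝕜] [Field K] [Algebra 𝕜 K] {n : ℕ}

theorem stable_pow (S : FD 𝕜 K) {F : Fam 𝕜 K n} (hF : Stable S.ψ F) (m : ℕ) (hm : 0 < m) :
    Stable (S.pow m hm).ψ F := by
  rw [S.stable_iff] at hF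
  rw [(S.pow m hm).stable_iff, S.pow_pt]
  intro v s
  have h : ∀ m : ℕ, ∀ v s, s ∈ F v ↔ (fun i => (S.ψ ^ m) (s i)) ∈ F ((S.pt ^ m) v) := by
    intro m
    induction m with
    | zero => intro v s; simp
    | succ m ih =>
      intro v s
      rw [pow_succ', Equiv.Perm.mul_apply, ih, hF]
      have h1 : (S.vec fun i => (S.ψ ^ m) (s i)) = fun i => (S.ψ * S.ψ ^ m) (s i) := by
        funext i
        rw [S.vec_apply, RingAut.mul_apply]
      rw [h1, ← pow_succ']
  exact h m v s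

theorem vec_pow (S : FD 𝕜 K) {s : Fin n → K} (hs : S.vec s = s) (m : ℕ) (hm : 0 < m) :
    (S.pow m hm).vec s = s := by
  funext i
  change (S.ψ ^ m) (s i) = s i
  have h : (S.ψ ^ 1) (s i) = s i := by
    rw [pow_one]
    exact congrFun hs i
  have := S.pow_fix h m
  rwa [one_mul] at this

theorem lines_finite (hK : IsCurve 𝕜 K) (hg : genus 𝕜 K ≠ 0) (S : FD 𝕜 K) (E : Bundle 𝕜 K n)
    (b : ℤ) (hE : Stable S.ψ E.stalk) :
    {s : Fin n → K | IsNorm s ∧ S.vec s = s ∧ vdeg E s = b}.Finite := by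
  classical
  obtain ⟨P⟩ := point_nonempty hK
  obtain ⟨m, hm, hP⟩ := S.exists_pow_fix hK P
  set N : ℕ := 2 * genus 𝕜 K with hN
  have hPm : (S.pow m hm).pt P = P := by rw [S.pow_pt, hP]
  have h := PS_finite (S := S.pow m hm) (E := E) (B := Finsupp.single P (N + b)) (ε := 1) (N := N)
    (a := b) hK hg (stable_pow S hE m hm) (by
      intro v
      rw [Finsupp.single_apply, Finsupp.single_apply]
      congr 1
      apply propext
      constructor
      · intro h
        apply (S.pow m hm).pt.injective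
        rw [hPm, h]
      · rintro rfl
        exact hPm.symm) (by norm_num) (by rw [Finsupp.degree_single]; ring) (by
      rw [hN]; push_cast; omega)
  refine (h.image Prod.fst).subset ?_
  rintro s ⟨h1, h2, h3⟩
  refine ⟨(s, 0), ⟨h1, vec_pow S h2 m hm, ?_, ?_⟩, rfl⟩
  · exact Finsupp.mapDomain_zero
  · rw [h3]
    simp

/-- the degree of line subbundles is bounded -/
theorem vdeg_bound (hK : IsCurve 𝕜 K) (hg : genus 𝕜 K ≠ 0) (E : Bundle 𝕜 K n) :
    ∃ b : ℤ, ∀ s : Fin n → K, s ≠ 0 → vdeg E s ≤ b := by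
  refine ⟨Module.finrank 𝕜 (secs E 0) + genus 𝕜 K - 1, fun s hs => ?_⟩
  have hmem : ∀ f ∈ H0 (ofDiv (vd hK E s)), f • s ∈ secs E 0 := by
    intro f hf
    rcases eq_or_ne f 0 with rfl | hf0
    · rw [zero_smul]
      exact zero_mem _
    rw [mem_H0_ofDiv' _ hf0] at hf
    rw [mem_secs' E _ (smul_ne_zero hf0 hs)]
    intro v
    rw [vord_smul E v hf0 hs, Finsupp.zero_apply, add_zero]
    exact hf v
  let Ψ : H0 (ofDiv (vd hK E s)) →ₗ[𝕜] secs E 0 :=
    { toFun := fun f => ⟨f.1 • s, hmem f.1 f.2⟩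
      map_add' := fun f g => Subtype.ext (add_smul _ _ _)
      map_smul' := fun c f => Subtype.ext (smul_assoc _ _ _) }
  have hinj : Function.Injective Ψ := by
    intro f g h
    have h1 : f.1 • s = g.1 • s := congrArg Subtype.val h
    exact Subtype.ext (smul_left_injective K hs h1)
  haveI := secs_finite hK hg E 0
  have h1 := LinearMap.finrank_le_finrank_of_injective hinj
  have h2 := rr_line hK hg (vd hK E s)
  rw [vd_degree] at h2
  omega

theorem nb_eq_zero (S : FD 𝕜 K) {E : Bundle 𝕜 K n} {b₀ : ℤ}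
    (hb : ∀ s : Fin n → K, s ≠ 0 → vdeg E s ≤ b₀) {b : ℤ} (h : b₀ < b) : nb S E b = 0 := by
  have h1 : {s : Fin n → K | IsNorm s ∧ S.vec s = s ∧ vdeg E s = b} = ∅ := by
    ext s
    simp only [Set.mem_ofPred_eq, Set.mem_empty_iff_false, iff_false, not_and]
    intro h1 _ h3
    have := hb s h1.ne_zero
    omega
  rw [nb, h1, Set.ncard_empty]

/-- every line subsheaf is contained in a unique saturated one -/
theorem PA_eq_sum (hK : IsCurve 𝕜 K) (hg : genus 𝕜 K ≠ 0) (S : FD 𝕜 K) {E : Bundle 𝕜 K n}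
    (hE : Stable S.ψ E.stalk) {b₀ : ℤ} (hb : ∀ s : Fin n → K, s ≠ 0 → vdeg E s ≤ b₀) (a : ℤ)
    (J : ℕ) (hJ : b₀ - a < J) :
    PA S E a = ∑ j ∈ Finset.range J, ND S j * nb S E (a + j) := by
  classical
  have hcov : PS S E a = ⋃ j ∈ Finset.range J,
      {s : Fin n → K | IsNorm s ∧ S.vec s = s ∧ vdeg E s = a + j} ×ˢ
        {D : Point 𝕜 K →₀ ℕ | (D.degree : ℤ) = j ∧ D.mapDomain S.pt = D} := by
    ext ⟨s, D⟩
    simp only [Set.mem_iUnion, Finset.mem_range, Set.mem_prod, exists_prop]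
    constructor
    · rintro ⟨h1, h2, h3, h4⟩
      dsimp only at h1 h2 h3 h4
      refine ⟨D.degree, ?_, ⟨h1, h2, h4⟩, rfl, h3⟩
      have := hb s h1.ne_zero
      omega
    · rintro ⟨j, hj, ⟨h1, h2, h3⟩, h4, h5⟩
      refine ⟨h1, h2, h5, ?_⟩
      dsimp only
      rw [h3, h4]
  have hfin : ∀ j : ℕ, ({s : Fin n → K | IsNorm s ∧ S.vec s = s ∧ vdeg E s = a + j} ×ˢ
        {D : Point 𝕜 K →₀ ℕ | (D.degree : ℤ) = j ∧ D.mapDomain S.pt = D}).Finite := fun j =>
    (lines_finite hK hg S E _ hE).prod (ND_finite hK S j)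
  have h1 : PA S E a = ∑ j ∈ Finset.range J,
      ({s : Fin n → K | IsNorm s ∧ S.vec s = s ∧ vdeg E s = a + j} ×ˢ
        {D : Point 𝕜 K →₀ ℕ | (D.degree : ℤ) = j ∧ D.mapDomain S.pt = D}).ncard := by
    rw [PA, hcov]
    have h2 : (⋃ j ∈ Finset.range J,
      {s : Fin n → K | IsNorm s ∧ S.vec s = s ∧ vdeg E s = a + (j : ℕ)} ×ˢ
        {D : Point 𝕜 K →₀ ℕ | (D.degree : ℤ) = (j : ℕ) ∧ D.mapDomain S.pt = D}) =
      (((Finset.range J).biUnion fun j => (hfin j).toFinset : Finset _) : Set _) := by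
      ext x
      simp
    rw [h2, Set.ncard_coe_finset, Finset.card_biUnion]
    · refine Finset.sum_congr rfl fun j _ => ?_
      rw [Set.ncard_eq_toFinset_card _ (hfin j)]
    · intro i _ j _ hij
      rw [Function.onFun, Finset.disjoint_left]
      rintro ⟨s, D⟩ hi hj
      rw [Set.Finite.mem_toFinset] at hi hj
      have h3 := hi.2.1
      have h4 := hj.2.1
      dsimp only at h3 h4
      apply hij
      omega
  rw [h1]
  refine Finset.sum_congr rfl fun j _ => ?_
  rw [Set.ncard_prod, mul_comm]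
  rfl

/-! ### direct sums of line bundles -/

/-- `𝒪(C₁) ⊕ 𝒪(C₂)` -/
noncomputable def dsum (C₁ C₂ : Point 𝕜 K →₀ ℤ) : Bundle 𝕜 K 2 where
  frame v := ⟨Matrix.diagonal ![(upow v (C₁ v) : K), (upow v (C₂ v) : K)],
    Matrix.diagonal ![(upow v (C₁ v) : K)⁻¹, (upow v (C₂ v) : K)⁻¹], by
      rw [Matrix.diagonal_mul_diagonal, ← Matrix.diagonal_one]
      congr 1
      ext i
      fin_cases i <;> simp, by
      rw [Matrix.diagonal_mul_diagonal, ← Matrix.diagonal_one]
      congr 1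
      ext i
      fin_cases i <;> simp⟩
  finite := by
    refine (C₁.finite_support.union C₂.finite_support).subset fun v hv => ?_
    by_contra hcon
    simp only [Set.mem_union, Function.mem_support, not_or, not_not] at hcon
    apply hv
    have h1 : (upow v (C₁ v) : K) = 1 := by rw [hcon.1, upow_zero, Units.val_one]
    have h2 : (upow v (C₂ v) : K) = 1 := by rw [hcon.2, upow_zero, Units.val_one]
    refine ⟨fun i j => ?_, fun i j => ?_⟩
    · change v.val (Matrix.diagonal ![(upow v (C₁ v) : K), (upow v (C₂ v) : K)] i j) ≤ 1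
      rw [h1, h2]
      fin_cases i <;> fin_cases j <;> simp
    · change v.val (Matrix.diagonal ![(upow v (C₁ v) : K)⁻¹, (upow v (C₂ v) : K)⁻¹] i j) ≤ 1
      rw [h1, h2]
      fin_cases i <;> fin_cases j <;> simp

theorem dsum_inv_mulVec (C₁ C₂ : Point 𝕜 K →₀ ℤ) (v : Point 𝕜 K) (s : Fin 2 → K) :
    ((dsum C₁ C₂).frame v)⁻¹.1 *ᵥ s = ![(upow v (C₁ v) : K)⁻¹ * s 0, (upow v (C₂ v) : K)⁻¹ * s 1] := by
  change Matrix.diagonal ![(upow v (C₁ v) : K)⁻¹, (upow v (C₂ v) : K)⁻¹] *ᵥ s = _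
  ext i
  rw [Matrix.mulVec_diagonal]
  fin_cases i <;> simp

theorem nval_dsum (C₁ C₂ : Point 𝕜 K →₀ ℤ) (v : Point 𝕜 K) (s : Fin 2 → K) :
    nval (dsum C₁ C₂) v s = max (exp (-C₁ v) * v.val (s 0)) (exp (-C₂ v) * v.val (s 1)) := by
  have h1 : v.val ((upow v (C₁ v) : K)⁻¹ * s 0) = exp (-C₁ v) * v.val (s 0) := by
    rw [map_mul, map_inv₀, upow_val, exp_neg]
  have h2 : v.val ((upow v (C₂ v) : K)⁻¹ * s 1) = exp (-C₂ v) * v.val (s 1) := by
    rw [map_mul, map_inv₀, upow_val, exp_neg]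
  apply le_antisymm
  · rw [nval_le_iff, dsum_inv_mulVec, Fin.forall_fin_two]
    change v.val ((upow v (C₁ v) : K)⁻¹ * s 0) ≤ _ ∧ v.val ((upow v (C₂ v) : K)⁻¹ * s 1) ≤ _
    rw [h1, h2]
    exact ⟨le_max_left _ _, le_max_right _ _⟩
  · have := (nval_le_iff (dsum C₁ C₂) v s _).1 le_rfl
    rw [dsum_inv_mulVec, Fin.forall_fin_two] at this
    change v.val ((upow v (C₁ v) : K)⁻¹ * s 0) ≤ _ ∧ v.val ((upow v (C₂ v) : K)⁻¹ * s 1) ≤ _ at this
    rw [h1, h2] at this
    exact max_le this.1 this.2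

theorem dsum_degree (C₁ C₂ : Point 𝕜 K →₀ ℤ) :
    (dsum C₁ C₂).degree = C₁.degree + C₂.degree := by
  rw [Bundle.degree, degree_eq_finsum, degree_eq_finsum,
    ← finsum_add_distrib C₁.finite_support C₂.finite_support]
  refine finsum_congr fun v => ?_
  change -v.ord (Matrix.diagonal ![(upow v (C₁ v) : K), (upow v (C₂ v) : K)]).det = _
  rw [Matrix.det_diagonal, Fin.prod_univ_two]
  change -v.ord ((upow v (C₁ v) : K) * (upow v (C₂ v) : K)) = _
  rw [v.ord_mul (upow v (C₁ v)).ne_zero (upow v (C₂ v)).ne_zero, upow_ord, upow_ord]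
  ring

theorem mem_dsum_stalk (C₁ C₂ : Point 𝕜 K →₀ ℤ) (v : Point 𝕜 K) (s : Fin 2 → K) :
    s ∈ (dsum C₁ C₂).stalk v ↔ v.val (s 0) ≤ exp (C₁ v) ∧ v.val (s 1) ≤ exp (C₂ v) := by
  have h : ∀ (m : ℤ) (x : ℤᵐ⁰), exp (-m) * x ≤ 1 ↔ x ≤ exp m := by
    intro m x
    rw [exp_neg, inv_mul_le_iff₀ (by rw [zero_lt_iff]; exact exp_ne_zero), mul_one]
  rw [mem_stalk_iff_nval, nval_dsum, max_le_iff, h, h]

theorem dsum_decomposable (C₁ C₂ : Point 𝕜 K →₀ ℤ) : IsDecomposable (dsum C₁ C₂) := by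
  let mk : (Point 𝕜 K →₀ ℤ) → Bundle 𝕜 K 1 := fun C => tw (trivialBundle 𝕜 K 1) C
  have hmk : ∀ (C : Point 𝕜 K →₀ ℤ) v (s : Fin 1 → K), s ∈ (mk C).stalk v ↔
      v.val (s 0) ≤ exp (C v) := by
    intro C v s
    rw [mem_tw_stalk, nval_le_iff]
    change (∀ i, v.val ((((1 : GL (Fin 1) K)⁻¹).1 *ᵥ s) i) ≤ _) ↔ _
    rw [inv_one, Units.val_one, Matrix.one_mulVec]
    constructor
    · intro h
      exact h 0
    · intro h i
      rw [Subsingleton.elim i 0]
      exact h
  refine ⟨1, 1, mk C₁, mk C₂,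
    { toFun := fun s => (fun _ => s 0, fun _ => s 1)
      invFun := fun p => ![p.1 0, p.2 0]
      left_inv := fun s => by
        ext i
        fin_cases i <;> simp
      right_inv := fun p => by
        refine Prod.ext ?_ ?_
        · funext i
          rw [Subsingleton.elim i 0]
          simp
        · funext i
          rw [Subsingleton.elim i 0]
          simp
      map_add' := fun s t => rfl
      map_smul' := fun c s => rfl }, one_pos, one_pos, fun v s => ?_⟩
  rw [mem_dsum_stalk]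
  change _ ↔ (fun _ : Fin 1 => s 0) ∈ (mk C₁).stalk v ∧ (fun _ : Fin 1 => s 1) ∈ (mk C₂).stalk v
  rw [hmk, hmk]

theorem dsum_stable (S : FD 𝕜 K) {C₁ C₂ : Point 𝕜 K →₀ ℤ} (h₁ : ∀ v, C₁ (S.pt v) = C₁ v)
    (h₂ : ∀ v, C₂ (S.pt v) = C₂ v) : Stable S.ψ (dsum C₁ C₂).stalk := by
  rw [S.stable_iff]
  intro v s
  rw [mem_dsum_stalk, mem_dsum_stalk, h₁, h₂, S.vec_apply, S.vec_apply, S.pt_val, S.pt_val]

/-- a finite set of nonzero elements of `K` which is stable under multiplication by the nonzero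
elements of the finite field `𝔽_Q` has a number of elements divisible by `Q - 1` -/
theorem dvd_of_scaling (S : FD 𝕜 K) (Y : Set K) (hY : Y.Finite) (h0 : ∀ y ∈ Y, y ≠ 0)
    (hs : ∀ y ∈ Y, ∀ c : 𝕜, c ≠ 0 → c ^ S.Q = c → algebraMap 𝕜 K c * y ∈ Y) :
    S.Q - 1 ∣ Y.ncard := by
  classical
  haveI := Fact.mk S.prime
  haveI := S.char
  obtain ⟨R, hR, hRm⟩ := J351.card_fix (𝕜 := 𝕜) S.p S.e S.epos
  have hR0 : (0 : 𝕜) ∈ R := by
    rw [hRm]
    exact zero_pow (pow_pos S.prime.pos _).ne'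
  have hRe : (R.erase 0).card = S.Q - 1 := by
    rw [Finset.card_erase_of_mem hR0, hR]
    rfl
  rw [Set.ncard_eq_toFinset_card _ hY,
    Finset.card_eq_sum_card_image (fun y => y ^ (S.Q - 1)) hY.toFinset]
  refine Finset.dvd_sum fun z hz => ?_
  rw [Finset.mem_image] at hz
  obtain ⟨y, hy, rfl⟩ := hz
  rw [Set.Finite.mem_toFinset] at hy
  have hy0 := h0 y hy
  have h2 := S.two_le_Q
  refine dvd_of_eq (hRe.symm.trans ?_)
  refine Finset.card_bij (fun c _ => algebraMap 𝕜 K c * y) ?_ ?_ ?_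
  · intro c hc
    rw [Finset.mem_erase, hRm] at hc
    rw [Finset.mem_filter, Set.Finite.mem_toFinset]
    refine ⟨hs y hy c hc.1 hc.2, ?_⟩
    have h3 : c ^ (S.Q - 1) = 1 := by
      have h4 : c ^ (S.Q - 1) * c = 1 * c := by
        rw [← pow_succ, Nat.sub_add_cancel (by omega), one_mul]
        exact hc.2
      exact mul_right_cancel₀ hc.1 h4
    rw [mul_pow, ← map_pow, h3, map_one, one_mul]
  · intro c _ c' _ h
    exact (algebraMap 𝕜 K).injective (mul_right_cancel₀ hy0 h)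
  · intro y' hy'
    rw [Finset.mem_filter, Set.Finite.mem_toFinset] at hy'
    have h3 : (y' / y) ^ (S.Q - 1) = 1 := by
      rw [div_pow, hy'.2, div_self (pow_ne_zero _ hy0)]
    have h4 : ¬ Transcendental 𝕜 (y' / y) := by
      rw [Transcendental, not_not]
      apply IsAlgebraic.of_pow (n := S.Q - 1) (by omega)
      rw [h3]
      exact isAlgebraic_one
    obtain ⟨c, hc⟩ := exists_const h4
    refine ⟨c, ?_, ?_⟩
    · rw [Finset.mem_erase, hRm]
      have hc0 : c ≠ 0 := by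
        rintro rfl
        rw [map_zero, div_eq_zero_iff] at hc
        rcases hc with hc | hc
        · exact h0 y' hy'.1 hc
        · exact hy0 hc
      refine ⟨hc0, ?_⟩
      rw [hc, ← map_pow] at h3
      have h5 : c ^ (S.Q - 1) = 1 := (algebraMap 𝕜 K).injective (by rw [h3, map_one])
      calc c ^ (S.p ^ S.e) = c ^ (S.Q - 1 + 1) := by rw [Nat.sub_add_cancel (by omega)]; rfl
        _ = c := by rw [pow_succ, h5, one_mul]
    · rw [← hc, div_mul_cancel₀ _ hy0]

theorem isNorm_two (s : Fin 2 → K) : IsNorm s ↔ s = ![0, 1] ∨ ∃ y, s = ![1, y] := by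
  constructor
  · rintro ⟨i, hi, h⟩
    fin_cases i
    · right
      refine ⟨s 1, ?_⟩
      ext j
      fin_cases j
      · exact hi
      · rfl
    · left
      ext j
      fin_cases j
      · exact h 0 (by decide)
      · exact hi
  · rintro (rfl | ⟨y, rfl⟩)
    · refine ⟨1, rfl, fun j hj => ?_⟩
      have : j = 0 := by omega
      subst this
      rfl
    · exact ⟨0, rfl, fun j hj => absurd hj (Fin.not_lt_zero j)⟩

/-- the number of line subbundles of a sum of two line bundles -/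
theorem nb_dsum (hK : IsCurve 𝕜 K) (hg : genus 𝕜 K ≠ 0) (S : FD 𝕜 K) {C₁ C₂ : Point 𝕜 K →₀ ℤ}
    (h₁ : ∀ v, C₁ (S.pt v) = C₁ v) (h₂ : ∀ v, C₂ (S.pt v) = C₂ v) (b : ℤ) :
    ∃ x : ℕ, nb S (dsum C₁ C₂) b =
      (if C₁.degree = b then 1 else 0) + (if C₂.degree = b then 1 else 0) + (S.Q - 1) * x := by
  classical
  have hE := dsum_stable S h₁ h₂
  have hfin := lines_finite hK hg S (dsum C₁ C₂) b hE
  have hv1 : vdeg (dsum C₁ C₂) ![1, 0] = C₁.degree := by
    rw [vdeg, degree_eq_finsum]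
    refine finsum_congr fun v => ?_
    rw [vord, nval_dsum]
    simp
  have hv2 : vdeg (dsum C₁ C₂) ![0, 1] = C₂.degree := by
    rw [vdeg, degree_eq_finsum]
    refine finsum_congr fun v => ?_
    rw [vord, nval_dsum]
    simp
  set Y : Set K := {y | y ≠ 0 ∧ S.ψ y = y ∧ vdeg (dsum C₁ C₂) ![1, y] = b} with hY
  have hYfin : Y.Finite := by
    have : Y ⊆ (fun s : Fin 2 → K => s 1) ''
        {s : Fin 2 → K | IsNorm s ∧ S.vec s = s ∧ vdeg (dsum C₁ C₂) s = b} := by
      rintro y ⟨h1, h2, h3⟩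
      refine ⟨![1, y], ⟨(isNorm_two _).2 (Or.inr ⟨y, rfl⟩), ?_, h3⟩, rfl⟩
      ext i
      rw [S.vec_apply]
      fin_cases i
      · simp
      · simpa using h2
    exact (hfin.image _).subset this
  have hdvd : S.Q - 1 ∣ Y.ncard := by
    apply dvd_of_scaling S Y hYfin (fun y hy => hy.1)
    rintro y ⟨h1, h2, h3⟩ c hc hcQ
    have hc' : algebraMap 𝕜 K c ≠ 0 := (map_ne_zero _).2 hc
    refine ⟨mul_ne_zero hc' h1, ?_, ?_⟩
    · rw [map_mul, S.const', hcQ, h2]
    · rw [← h3, vdeg, vdeg]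
      refine finsum_congr fun v => ?_
      rw [vord, vord, nval_dsum, nval_dsum]
      simp only [Matrix.cons_val_zero, Matrix.cons_val_one, map_mul, v.const c hc, one_mul]
  obtain ⟨x, hx⟩ := hdvd
  refine ⟨x, ?_⟩
  rw [← hx]
  have hsplit : {s : Fin 2 → K | IsNorm s ∧ S.vec s = s ∧ vdeg (dsum C₁ C₂) s = b} =
      ((if C₁.degree = b then {![1, 0]} else ∅) ∪ (if C₂.degree = b then {![0, 1]} else ∅)) ∪
        (fun y => ![1, y]) '' Y := by
    ext s
    simp only [Set.mem_union, Set.mem_image]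
    constructor
    · rintro ⟨h1, h2, h3⟩
      rcases (isNorm_two s).1 h1 with rfl | ⟨y, rfl⟩
      · left; right
        rw [hv2] at h3
        rw [if_pos h3]
        rfl
      · rcases eq_or_ne y 0 with rfl | hy
        · left; left
          rw [hv1] at h3
          rw [if_pos h3]
          rfl
        · right
          refine ⟨y, ⟨hy, ?_, h3⟩, rfl⟩
          have := congrFun h2 1
          rw [S.vec_apply] at this
          simpa using this
    · rintro ((h | h) | ⟨y, ⟨h1, h2, h3⟩, rfl⟩)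
      · split_ifs at h with hd
        · rw [Set.mem_singleton_iff] at h
          subst h
          refine ⟨(isNorm_two _).2 (Or.inr ⟨0, rfl⟩), ?_, by rw [hv1, hd]⟩
          ext i
          rw [S.vec_apply]
          fin_cases i <;> simp
        · exact absurd h (Set.notMem_empty _)
      · split_ifs at h with hd
        · rw [Set.mem_singleton_iff] at h
          subst h
          refine ⟨(isNorm_two _).2 (Or.inl rfl), ?_, by rw [hv2, hd]⟩
          ext i
          rw [S.vec_apply]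
          fin_cases i <;> simp
        · exact absurd h (Set.notMem_empty _)
      · refine ⟨(isNorm_two _).2 (Or.inr ⟨y, rfl⟩), ?_, h3⟩
        ext i
        rw [S.vec_apply]
        fin_cases i
        · simp
        · simpa using h2
  have h10 : (![1, 0] : Fin 2 → K) ≠ ![0, 1] := by
    intro h
    have := congrFun h 0
    simp at this
  have hA1 : (if C₁.degree = b then ({![1, 0]} : Set (Fin 2 → K)) else ∅).Finite := by
    split_ifs
    · exact Set.finite_singleton _
    · exact Set.finite_empty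
  have hA2 : (if C₂.degree = b then ({![0, 1]} : Set (Fin 2 → K)) else ∅).Finite := by
    split_ifs
    · exact Set.finite_singleton _
    · exact Set.finite_empty
  have hmem1 : ∀ s, s ∈ (if C₁.degree = b then ({![1, 0]} : Set (Fin 2 → K)) else ∅) →
      s = ![1, 0] := by
    intro s hs
    split_ifs at hs
    · exact hs
    · exact absurd hs (Set.notMem_empty _)
  have hmem2 : ∀ s, s ∈ (if C₂.degree = b then ({![0, 1]} : Set (Fin 2 → K)) else ∅) →
      s = ![0, 1] := by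
    intro s hs
    split_ifs at hs
    · exact hs
    · exact absurd hs (Set.notMem_empty _)
  have hdisj1 : Disjoint (if C₁.degree = b then ({![1, 0]} : Set (Fin 2 → K)) else ∅)
      (if C₂.degree = b then ({![0, 1]} : Set (Fin 2 → K)) else ∅) := by
    rw [Set.disjoint_left]
    intro s hs hs'
    have h1 := hmem1 s hs
    have h2 := hmem2 s hs'
    exact h10 (h1.symm.trans h2)
  have hdisj2 : Disjoint ((if C₁.degree = b then ({![1, 0]} : Set (Fin 2 → K)) else ∅) ∪
      (if C₂.degree = b then ({![0, 1]} : Set (Fin 2 → K)) else ∅)) ((fun y => ![1, y]) '' Y) := by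
    rw [Set.disjoint_left]
    rintro s (hs | hs) ⟨y, hy, rfl⟩
    · have h1 := congrFun (hmem1 _ hs) 1
      exact hy.1 h1
    · have h1 := congrFun (hmem2 _ hs) 0
      simp at h1
  have hinj : Function.Injective (fun y : K => (![1, y] : Fin 2 → K)) := by
    intro y y' h
    exact congrFun h 1
  rw [nb, hsplit, Set.ncard_union_eq hdisj2 (hA1.union hA2) (hYfin.image _),
    Set.ncard_union_eq hdisj1 hA1 hA2, Set.ncard_image_of_injective _ hinj]
  congr 1
  congr 1
  · split_ifs <;> simp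
  · split_ifs <;> simp

end Pool.Agent.TH185
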