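import Pool.Agent.TH185.Zeta
import Pool.Agent.TH185.Split

/-! Limits along the powers `m !` of the Frobenius automorphism. -/

open scoped WithZero Matrix Topology
open WithZero Filter

set_option linter.unusedSectionVars false

namespace Pool.Agent.TH185

open Pool.Agent.TH185.C

section Lim

variable (ℓ : ℕ) [Fact ℓ.Prime] (U : Ultrafilter ℕ)

/-- the limit of a sequence of `ℓ`-adic integers along an ultrafilter -/
noncomputable def LI (x : ℕ → ℤ_[ℓ]) : ℤ_[ℓ] := limUnder (U : Filter ℕ) x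

theorem tendsto_LI (x : ℕ → ℤ_[ℓ]) : Tendsto x U (𝓝 (LI ℓ U x)) :=
  (U.map x).le_nhds_lim

theorem LI_eq {x : ℕ → ℤ_[ℓ]} {c : ℤ_[ℓ]} (h : Tendsto x U (𝓝 c)) : LI ℓ U x = c :=
  tendsto_nhds_unique (tendsto_LI ℓ U x) h

theorem LI_add (x y : ℕ → ℤ_[ℓ]) : LI ℓ U (fun m => x m + y m) = LI ℓ U x + LI ℓ U y :=
  LI_eq ℓ U ((tendsto_LI ℓ U x).add (tendsto_LI ℓ U y))

theorem LI_mul (x y : ℕ → ℤ_[ℓ]) : LI ℓ U (fun m => x m * y m) = LI ℓ U x * LI ℓ U y :=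
  LI_eq ℓ U ((tendsto_LI ℓ U x).mul (tendsto_LI ℓ U y))

theorem LI_const (c : ℤ_[ℓ]) : LI ℓ U (fun _ => c) = c :=
  LI_eq ℓ U tendsto_const_nhds

theorem LI_sum {ι : Type*} (s : Finset ι) (x : ι → ℕ → ℤ_[ℓ]) :
    LI ℓ U (fun m => ∑ i ∈ s, x i m) = ∑ i ∈ s, LI ℓ U (x i) :=
  LI_eq ℓ U (tendsto_finsetSum s fun i _ => tendsto_LI ℓ U (x i))

theorem LI_congr {x y : ℕ → ℤ_[ℓ]} (h : ∀ᶠ m in (U : Filter ℕ), x m = y m) :
    LI ℓ U x = LI ℓ U y :=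
  LI_eq ℓ U ((tendsto_LI ℓ U y).congr' (h.mono fun _ hm => hm.symm))

/-- divisibility and convergence -/
theorem tendsto_of_dvd {x : ℕ → ℤ} {c : ℤ} (h : ∀ s : ℕ, ∃ m₀, ∀ m ≥ m₀, (ℓ : ℤ) ^ s ∣ x m - c) :
    Tendsto (fun m => (x m : ℤ_[ℓ])) atTop (𝓝 (c : ℤ_[ℓ])) := by
  rw [Metric.tendsto_atTop]
  intro ε hε
  obtain ⟨s, hs⟩ := PadicInt.exists_pow_neg_lt ℓ hε
  obtain ⟨m₀, hm₀⟩ := h s
  refine ⟨m₀, fun m hm => ?_⟩
  rw [dist_eq_norm, ← Int.cast_sub]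
  exact ((PadicInt.norm_int_le_pow_iff_dvd).2 (by exact_mod_cast hm₀ m hm)).trans_lt hs

end Lim

variable {𝕜 K : Type} [Field 𝕜] [IsAlgClosed 𝕜] [Field K] [Algebra 𝕜 K] {n : ℕ}

/-- the Frobenius automorphism `ψ ^ (m !)` -/
def SM (S : FD 𝕜 K) (m : ℕ) : FD 𝕜 K := S.pow m.factorial (Nat.factorial_pos m)

theorem SM_pt (S : FD 𝕜 K) (m : ℕ) : (SM S m).pt = S.pt ^ m.factorial := S.pow_pt _ _

theorem SM_Q (S : FD 𝕜 K) (m : ℕ) : (SM S m).Q = S.Q ^ m.factorial := S.pow_Q _ _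

theorem pow_fix_of_dvd {X : Type*} (f : Equiv.Perm X) {x : X} {k m : ℕ} (h : (f ^ k) x = x)
    (hkm : k ∣ m) : (f ^ m) x = x := by
  obtain ⟨i, rfl⟩ := hkm
  rw [pow_mul]
  induction i with
  | zero => simp
  | succ i ih => rw [pow_succ', Equiv.Perm.mul_apply, ih, h]

theorem ev_points (hK : IsCurve 𝕜 K) (S : FD 𝕜 K) (T : Finset (Point 𝕜 K)) :
    ∃ m₀, ∀ m ≥ m₀, ∀ v ∈ T, (SM S m).pt v = v := by
  choose k hk hkv using fun v => S.exists_pow_fix hK v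
  refine ⟨∑ v ∈ T, k v, fun m hm v hv => ?_⟩
  rw [SM_pt]
  apply pow_fix_of_dvd _ (hkv v)
  apply Nat.dvd_factorial (hk v)
  exact (Finset.single_le_sum (f := k) (fun _ _ => Nat.zero_le _) hv).trans hm

theorem ev_elems (S : FD 𝕜 K) (T : Finset K) :
    ∃ m₀, ∀ m ≥ m₀, ∀ x ∈ T, (SM S m).ψ x = x := by
  choose k hk hkx using fun x => S.locFin x
  refine ⟨∑ x ∈ T, k x, fun m hm x hx => ?_⟩
  change (S.ψ ^ m.factorial) x = x
  obtain ⟨i, hi⟩ : k x ∣ m.factorial := Nat.dvd_factorial (hk x)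
    ((Finset.single_le_sum (f := k) (fun _ _ => Nat.zero_le _) hx).trans hm)
  rw [hi]
  exact S.pow_fix (hkx x) i

theorem ev_div (hK : IsCurve 𝕜 K) (S : FD 𝕜 K) {M : Type*} [Zero M] (C : Point 𝕜 K →₀ M) :
    ∃ m₀, ∀ m ≥ m₀, ∀ v, C ((SM S m).pt v) = C v := by
  obtain ⟨m₀, h⟩ := ev_points hK S C.support
  refine ⟨m₀, fun m hm v => ?_⟩
  by_cases hv : v ∈ C.support
  · rw [h m hm v hv]
  · by_cases hw : (SM S m).pt v ∈ C.support
    · have h1 := h m hm _ hw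
      rw [(SM S m).pt.injective h1] at hw
      exact absurd hw hv
    · rw [Finsupp.notMem_support_iff] at hv hw
      rw [hv, hw]

theorem stalk_of_reg (E : Bundle 𝕜 K n) (v : Point 𝕜 K)
    (hv : (∀ i j, v.val ((E.frame v).1 i j) ≤ 1) ∧ (∀ i j, v.val ((E.frame v)⁻¹.1 i j) ≤ 1))
    (s : Fin n → K) : s ∈ E.stalk v ↔ ∀ i, v.val (s i) ≤ 1 := by
  constructor
  · intro h
    have h1 : (E.frame v).1 *ᵥ ((E.frame v)⁻¹.1 *ᵥ s) = s := gl_mulVec_inv _ _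
    rw [← h1]
    exact Point.RegM.mulVec (v := v) hv.1 h
  · intro h
    exact Point.RegM.mulVec (v := v) hv.2 h

theorem ev_stable (hK : IsCurve 𝕜 K) (S : FD 𝕜 K) (E : Bundle 𝕜 K n) :
    ∃ m₀, ∀ m ≥ m₀, Stable (SM S m).ψ E.stalk := by
  classical
  obtain ⟨m₁, h₁⟩ := ev_points hK S E.finite.toFinset
  obtain ⟨m₂, h₂⟩ := ev_elems S (E.finite.toFinset.biUnion fun v =>
    Finset.univ.image fun p : Fin n × Fin n => (E.frame v)⁻¹.1 p.1 p.2)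
  refine ⟨max m₁ m₂, fun m hm => ?_⟩
  have hm1 := h₁ m ((le_max_left _ _).trans hm)
  have hm2 := h₂ m ((le_max_right _ _).trans hm)
  rw [(SM S m).stable_iff]
  intro v s
  by_cases hv : v ∈ E.finite.toFinset
  · have hv' := hm1 v hv
    have hent : ∀ i j, (SM S m).ψ ((E.frame v)⁻¹.1 i j) = (E.frame v)⁻¹.1 i j := by
      intro i j
      apply hm2
      rw [Finset.mem_biUnion]
      exact ⟨v, hv, Finset.mem_image.2 ⟨(i, j), Finset.mem_univ _, rfl⟩⟩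
    have hval : ∀ x, v.val ((SM S m).ψ x) = v.val x := by
      intro x
      conv_lhs => rw [← hv']
      exact (SM S m).pt_val v x
    rw [hv']
    change (∀ i, v.val (((E.frame v)⁻¹.1 *ᵥ s) i) ≤ 1) ↔
      ∀ i, v.val (((E.frame v)⁻¹.1 *ᵥ ((SM S m).vec s)) i) ≤ 1
    refine forall_congr' fun i => ?_
    have h3 : ((E.frame v)⁻¹.1 *ᵥ ((SM S m).vec s)) i =
        (SM S m).ψ (((E.frame v)⁻¹.1 *ᵥ s) i) := by
      rw [Matrix.mulVec, Matrix.mulVec, dotProduct, dotProduct, map_sum]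
      refine Finset.sum_congr rfl fun j _ => ?_
      rw [map_mul, hent]
      rfl
    rw [h3, hval]
  · have hw : (SM S m).pt v ∉ E.finite.toFinset := by
      intro hw
      have h1 := hm1 _ hw
      rw [(SM S m).pt.injective h1] at hw
      exact hv hw
    rw [Set.Finite.mem_toFinset, Set.mem_ofPred_eq, not_not] at hv hw
    rw [stalk_of_reg E v hv, stalk_of_reg E _ hw]
    refine forall_congr' fun i => ?_
    rw [(SM S m).vec_apply, (SM S m).pt_val]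

theorem tendsto_Q (S : FD 𝕜 K) (ℓ : ℕ) [Fact ℓ.Prime] (hℓ : ℓ ≠ S.p) :
    Tendsto (fun m => (((SM S m).Q : ℕ) : ℤ_[ℓ])) atTop (𝓝 1) := by
  have h := tendsto_of_dvd ℓ (x := fun m => ((SM S m).Q : ℤ)) (c := 1) (by
    intro s
    refine ⟨(ℓ ^ s).totient, fun m hm => ?_⟩
    have hcop : Nat.Coprime S.Q (ℓ ^ s) := by
      apply Nat.Coprime.pow
      exact (Nat.coprime_primes S.prime (Fact.out : ℓ.Prime)).2 (Ne.symm hℓ)
    have h1 : (ℓ ^ s).totient ∣ m.factorial :=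
      Nat.dvd_factorial (Nat.totient_pos.2 (pow_pos (Fact.out : ℓ.Prime).pos s)) hm
    obtain ⟨i, hi⟩ := h1
    have h2 : S.Q ^ m.factorial ≡ 1 [MOD ℓ ^ s] := by
      rw [hi, pow_mul]
      have := (Nat.ModEq.pow_totient hcop).pow i
      rwa [one_pow] at this
    rw [SM_Q]
    have h3 := (Nat.modEq_iff_dvd.1 h2.symm)
    push_cast at h3 ⊢
    exact h3)
  simpa using h

theorem tendsto_GS (S : FD 𝕜 K) (ℓ : ℕ) [Fact ℓ.Prime] (hℓ : ℓ ≠ S.p) (c : ℕ) :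
    Tendsto (fun m => ((GS (SM S m).Q c : ℕ) : ℤ_[ℓ])) atTop (𝓝 (c : ℤ_[ℓ])) := by
  have h1 : ∀ m, ((GS (SM S m).Q c : ℕ) : ℤ_[ℓ]) =
      ∑ i ∈ Finset.range c, (((SM S m).Q : ℕ) : ℤ_[ℓ]) ^ i := by
    intro m
    rw [GS]
    push_cast
    rfl
  simp only [h1]
  have h2 := tendsto_finsetSum (Finset.range c) fun i (_ : i ∈ Finset.range c) =>
    (tendsto_Q S ℓ hℓ).pow i
  simpa using h2

theorem tendsto_ND (hK : IsCurve 𝕜 K) (hg : genus 𝕜 K ≠ 0) (S : FD 𝕜 K) (ℓ : ℕ) [Fact ℓ.Prime]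
    (hℓ : ℓ ≠ S.p) (j : ℕ) (hj : 2 * genus 𝕜 K - 2 < j) :
    Tendsto (fun m => ((ND (SM S m) j : ℕ) : ℤ_[ℓ])) atTop (𝓝 0) := by
  obtain ⟨P⟩ := point_nonempty hK
  obtain ⟨m₁, h₁⟩ := ev_points hK S {P}
  obtain ⟨m₂, h₂⟩ := ev_div hK S (canDiv hK hg)
  set m₀ := max m₁ m₂ with hm₀
  have hP : (SM S m₀).pt P = P := h₁ m₀ (le_max_left _ _) P (Finset.mem_singleton_self P)
  have hcan := h₂ m₀ (le_max_right _ _)
  have h := tendsto_of_dvd ℓ (x := fun m => ((ND (SM S m) j : ℕ) : ℤ)) (c := 0) (by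
    intro s
    obtain ⟨T, hT, hT'⟩ := ND_small hK hg (SM S m₀) hP hcan ℓ hℓ j hj s
    refine ⟨m₀.factorial * T, fun m hm => ?_⟩
    obtain ⟨i, hi⟩ : m₀.factorial * T ∣ m.factorial :=
      Nat.dvd_factorial (Nat.mul_pos (Nat.factorial_pos _) hT) hm
    have hi0 : 0 < T * i := by
      rcases Nat.eq_zero_or_pos (T * i) with h0 | h0
      · rw [mul_assoc, h0, mul_zero] at hi
        exact absurd hi (Nat.factorial_ne_zero m)
      · exact h0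
    have h3 := hT' (T * i) hi0 (dvd_mul_right _ _)
    have h4 : ND ((SM S m₀).pow (T * i) hi0) j = ND (SM S m) j := by
      rw [ND, ND, FD.pow_pt, SM_pt, SM_pt, ← pow_mul, ← mul_assoc, hi]
    rw [h4] at h3
    rw [sub_zero]
    exact_mod_cast h3)
  simpa using h

end Pool.Agent.TH185
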