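import Pool.Agent.TH185.Frob
import Pool.Agent.TH126.J351

/-! Twists of bundles by divisors, Riemann-Roch. -/

open scoped WithZero Matrix
open WithZero

set_option linter.unusedSectionVars false

namespace Pool.Agent.TH185

open Pool.Agent.TH185.C

variable {𝕜 K : Type} [Field 𝕜] [IsAlgClosed 𝕜] [Field K] [Algebra 𝕜 K] {n : ℕ}

theorem vord_eq (E : Bundle 𝕜 K n) (v : Point 𝕜 K) {s : Fin n → K} (hs : s ≠ 0) :
    nval E v s = exp (-vord E v s) := by
  rw [vord, neg_neg, exp_log (nval_ne_zero E v hs)]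

theorem vord_smul (E : Bundle 𝕜 K n) (v : Point 𝕜 K) {a : K} (ha : a ≠ 0) {s : Fin n → K}
    (hs : s ≠ 0) : vord E v (a • s) = v.ord a + vord E v s := by
  rw [vord, nval_smul, log_mul (v.val_ne_zero ha) (nval_ne_zero E v hs), vord, Point.ord]
  ring

theorem vord_finite (hK : IsCurve 𝕜 K) (E : Bundle 𝕜 K n) {s : Fin n → K} (hs : s ≠ 0) :
    {v : Point 𝕜 K | vord E v s ≠ 0}.Finite := by
  obtain ⟨i, hi⟩ := Function.ne_iff.1 hs
  rw [Pi.zero_apply] at hi
  refine ((E.finite.union (Set.finite_iUnion fun j => finite_not_reg hK (s j))).union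
    (finite_ord hK (s i))).subset fun v hv => ?_
  by_contra hcon
  simp only [Set.mem_union, Set.mem_iUnion, Set.mem_ofPred_eq, not_or, not_exists, not_not] at hcon
  obtain ⟨⟨h1, h2⟩, h3⟩ := hcon
  apply hv
  have h4 : nval E v s = 1 := by
    apply le_antisymm
    · rw [nval_le_iff]
      exact Point.RegM.mulVec (v := v) h1.2 h2
    · have h5 : v.val (s i) = 1 := (v.val_eq_one_iff hi).2 h3
      rw [← h5]
      have h6 : (E.frame v).1 *ᵥ ((E.frame v)⁻¹.1 *ᵥ s) = s := gl_mulVec_inv _ _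
      rw [← h6]
      rw [Matrix.mulVec, dotProduct]
      refine Valuation.map_sum_le _ fun j _ => ?_
      rw [map_mul]
      refine (mul_le_of_le_one_left' (h1.1 i j)).trans ?_
      rw [h6]
      exact (nval_le_iff E v s _).1 le_rfl j
  rw [vord, h4, log_one, neg_zero]

theorem vdeg_smul (hK : IsCurve 𝕜 K) (E : Bundle 𝕜 K n) {a : K} (ha : a ≠ 0) {s : Fin n → K}
    (hs : s ≠ 0) : vdeg E (a • s) = vdeg E s := by
  rw [vdeg, finsum_congr fun v => vord_smul E v ha hs,
    finsum_add_distrib (finite_ord hK a) (vord_finite hK E hs), sum_ord hK, zero_add]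
  rfl

/-- the divisor of a nonzero vector -/
noncomputable def vdiv (hK : IsCurve 𝕜 K) (E : Bundle 𝕜 K n) {s : Fin n → K} (hs : s ≠ 0) :
    Point 𝕜 K →₀ ℤ :=
  Finsupp.ofSupportFinite (fun v => vord E v s) (vord_finite hK E hs)

theorem vdiv_apply (hK : IsCurve 𝕜 K) (E : Bundle 𝕜 K n) {s : Fin n → K} (hs : s ≠ 0)
    (v : Point 𝕜 K) : vdiv hK E hs v = vord E v s := rfl

theorem degree_eq_finsum (D : Point 𝕜 K →₀ ℤ) : D.degree = ∑ᶠ v, D v := by
  rw [Finsupp.degree_apply, finsum_eq_sum_of_support_subset]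
  intro v hv
  rw [Function.mem_support] at hv
  exact Finsupp.mem_support_iff.2 hv

theorem vdiv_degree (hK : IsCurve 𝕜 K) (E : Bundle 𝕜 K n) {s : Fin n → K} (hs : s ≠ 0) :
    (vdiv hK E hs).degree = vdeg E s := degree_eq_finsum _

/-- the divisor of a nonzero rational function -/
noncomputable def pdiv (hK : IsCurve 𝕜 K) (f : K) : Point 𝕜 K →₀ ℤ :=
  Finsupp.ofSupportFinite (fun v => v.ord f) (finite_ord hK f)

theorem pdiv_apply (hK : IsCurve 𝕜 K) (f : K) (v : Point 𝕜 K) : pdiv hK f v = v.ord f := rfl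

theorem pdiv_degree (hK : IsCurve 𝕜 K) (f : K) : (pdiv hK f).degree = 0 := by
  rw [degree_eq_finsum]
  exact sum_ord hK f

/-- `unif v ^ (-m)` -/
noncomputable def upow (v : Point 𝕜 K) (m : ℤ) : Kˣ := (Units.mk0 (unif v) (unif_ne_zero v)) ^ (-m)

theorem upow_val (v : Point 𝕜 K) (m : ℤ) : v.val (upow v m : K) = exp m := by
  rw [upow, Units.val_zpow_eq_zpow_val, Units.val_mk0, map_zpow₀, val_unif, ← exp_zsmul]
  congr 1
  simp

theorem upow_ord (v : Point 𝕜 K) (m : ℤ) : v.ord (upow v m : K) = -m := by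
  rw [Point.ord, upow_val, log_exp]

theorem upow_zero (v : Point 𝕜 K) : upow v 0 = 1 := by
  rw [upow, neg_zero, zpow_zero]

/-- the line bundle of a divisor -/
noncomputable def ofDiv (C : Point 𝕜 K →₀ ℤ) : LineBundle 𝕜 K where
  frame v := upow v (C v)
  finite := by
    refine C.finite_support.subset fun v hv => ?_
    rw [Function.mem_support]
    intro h
    apply hv
    rw [h, upow_zero, Units.val_one, map_one]

theorem mem_H0_ofDiv (C : Point 𝕜 K →₀ ℤ) (f : K) :
    f ∈ H0 (ofDiv C) ↔ ∀ v : Point 𝕜 K, v.val f ≤ exp (C v) := by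
  change (∀ v : Point 𝕜 K, v.val f ≤ v.val ((upow v (C v) : Kˣ) : K)) ↔ _
  simp only [upow_val]

theorem ofDiv_degree (C : Point 𝕜 K →₀ ℤ) : (ofDiv C).degree = C.degree := by
  rw [LineBundle.degree, degree_eq_finsum]
  refine finsum_congr fun v => ?_
  change -v.ord ((upow v (C v) : Kˣ) : K) = _
  rw [upow_ord, neg_neg]

/-- the twist `E(C)` -/
noncomputable def tw (E : Bundle 𝕜 K n) (C : Point 𝕜 K →₀ ℤ) : Bundle 𝕜 K n where
  frame v := ⟨(upow v (C v) : K) • (E.frame v).1, ((upow v (C v))⁻¹ : Kˣ).1 • (E.frame v)⁻¹.1, by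
    rw [Matrix.smul_mul, Matrix.mul_smul, smul_smul, ← Units.val_mul, ← Units.val_mul,
      mul_inv_cancel, mul_inv_cancel, Units.val_one, Units.val_one, one_smul], by
    rw [Matrix.smul_mul, Matrix.mul_smul, smul_smul, ← Units.val_mul, ← Units.val_mul,
      inv_mul_cancel, inv_mul_cancel, Units.val_one, Units.val_one, one_smul]⟩
  finite := by
    refine (E.finite.union C.finite_support).subset fun v hv => ?_
    by_contra hcon
    rw [Set.mem_union, not_or] at hcon
    obtain ⟨h1, h2⟩ := hcon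
    rw [Set.mem_ofPred_eq, not_not] at h1
    rw [Function.mem_support, not_not] at h2
    apply hv
    refine ⟨fun i j => ?_, fun i j => ?_⟩
    · change v.val ((((upow v (C v) : Kˣ) : K) • (E.frame v).1) i j) ≤ 1
      rw [h2, upow_zero, Units.val_one, one_smul]
      exact h1.1 i j
    · change v.val (((((upow v (C v))⁻¹ : Kˣ) : K) • (E.frame v)⁻¹.1) i j) ≤ 1
      rw [h2, upow_zero, inv_one, Units.val_one, one_smul]
      exact h1.2 i j

theorem mem_tw_stalk (E : Bundle 𝕜 K n) (C : Point 𝕜 K →₀ ℤ) (v : Point 𝕜 K) (s : Fin n → K) :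
    s ∈ (tw E C).stalk v ↔ nval E v s ≤ exp (C v) := by
  rw [nval_le_iff]
  change (∀ i, v.val ((((((upow v (C v))⁻¹ : Kˣ) : K) • (E.frame v)⁻¹.1) *ᵥ s) i) ≤ 1) ↔ _
  refine forall_congr' fun i => ?_
  rw [Matrix.smul_mulVec, Pi.smul_apply, smul_eq_mul, map_mul, Units.val_inv_eq_inv_val, map_inv₀,
    upow_val, inv_mul_le_iff₀ (by rw [zero_lt_iff]; exact exp_ne_zero), mul_one]

theorem tw_degree (E : Bundle 𝕜 K n) (C : Point 𝕜 K →₀ ℤ) :
    (tw E C).degree = E.degree + n * C.degree := by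
  rw [Bundle.degree, Bundle.degree, degree_eq_finsum, mul_finsum _ _, ← finsum_add_distrib]
  · refine finsum_congr fun v => ?_
    change -v.ord (((upow v (C v) : Kˣ) : K) • (E.frame v).1).det = _
    rw [Matrix.det_smul, Fintype.card_fin, v.ord_mul (pow_ne_zero _ (upow v (C v)).ne_zero)
      (gl_det_ne_zero _), v.ord_pow, upow_ord]
    ring
  · refine E.finite_det.subset fun v hv => ?_
    rw [Function.mem_support] at hv
    intro h
    exact hv (by rw [h, neg_zero])
  · refine C.finite_support.subset fun v hv => ?_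
    rw [Function.mem_support] at hv ⊢
    intro h
    exact hv (by rw [h, mul_zero])

/-- `H⁰(X, E(C))` -/
noncomputable def secs (E : Bundle 𝕜 K n) (C : Point 𝕜 K →₀ ℤ) : Submodule 𝕜 (Fin n → K) :=
  (tw E C).sections

theorem mem_secs (E : Bundle 𝕜 K n) (C : Point 𝕜 K →₀ ℤ) (s : Fin n → K) :
    s ∈ secs E C ↔ ∀ v, nval E v s ≤ exp (C v) :=
  forall_congr' fun v => mem_tw_stalk E C v s

theorem mem_secs' (E : Bundle 𝕜 K n) (C : Point 𝕜 K →₀ ℤ) {s : Fin n → K} (hs : s ≠ 0) :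
    s ∈ secs E C ↔ ∀ v, 0 ≤ vord E v s + C v := by
  rw [mem_secs]
  refine forall_congr' fun v => ?_
  rw [vord_eq E v hs, exp_le_exp]
  omega

theorem mem_H0_ofDiv' (C : Point 𝕜 K →₀ ℤ) {f : K} (hf : f ≠ 0) :
    f ∈ H0 (ofDiv C) ↔ ∀ v : Point 𝕜 K, 0 ≤ v.ord f + C v := by
  rw [mem_H0_ofDiv]
  refine forall_congr' fun v => ?_
  rw [v.val_eq_exp hf, exp_le_exp]
  omega

section RR

variable (hK : IsCurve 𝕜 K) (hg : genus 𝕜 K ≠ 0)
include hK hg

theorem secs_finite (E : Bundle 𝕜 K n) (C : Point 𝕜 K →₀ ℤ) : FiniteDimensional 𝕜 (secs E C) :=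
  (rr hK hg (tw E C)).1

/-- the canonical divisor -/
noncomputable def canDiv : Point 𝕜 K →₀ ℤ :=
  Finsupp.ofSupportFinite (fun v => -v.ord ((can hK hg).frame v : K)) (by
    refine (can hK hg).finite.subset fun v hv h => hv ?_
    change -v.ord _ = 0
    rw [neg_eq_zero, ← v.val_eq_one_iff ((can hK hg).frame v).ne_zero]
    exact h)

theorem canDiv_degree : (canDiv hK hg).degree = 2 * genus 𝕜 K - 2 := by
  rw [← can_degree hK hg, degree_eq_finsum]
  rfl

theorem H0_finite' (C : Point 𝕜 K →₀ ℤ) : FiniteDimensional 𝕜 (H0 (ofDiv C)) :=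
  (rrL hK hg (ofDiv C)).1

/-- Riemann-Roch for line bundles -/
theorem rr_line (C : Point 𝕜 K →₀ ℤ) :
    (Module.finrank 𝕜 (H0 (ofDiv C)) : ℤ) - Module.finrank 𝕜 (H0 (ofDiv (canDiv hK hg - C))) =
      C.degree + 1 - genus 𝕜 K := by
  have h1 := (rrL hK hg (ofDiv C)).2
  have h2 : H0 (lmul (can hK hg) (linv (ofDiv C))) = H0 (ofDiv (canDiv hK hg - C)) := by
    ext f
    rw [mem_H0_ofDiv]
    refine forall_congr' fun v => ?_
    rw [mem_lmul_linv]
    change v.val (f * ((upow v (C v) : Kˣ) : K)) ≤ v.val ((can hK hg).frame v : K) ↔ _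
    rw [map_mul, upow_val, ← le_mul_inv_iff₀ (by rw [zero_lt_iff]; exact exp_ne_zero), ← exp_neg,
      v.val_eq_exp ((can hK hg).frame v).ne_zero, ← exp_add, Finsupp.sub_apply]
    rfl
  rw [h2, ofDiv_degree] at h1
  exact h1

theorem finrank_large (C : Point 𝕜 K →₀ ℤ) (hC : 2 * (genus 𝕜 K : ℤ) - 2 < C.degree) :
    (Module.finrank 𝕜 (H0 (ofDiv C)) : ℤ) = C.degree + 1 - genus 𝕜 K := by
  have h1 := rr_line hK hg C
  have h2 : H0 (ofDiv (canDiv hK hg - C)) = ⊥ := by
    apply H0_eq_bot hK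
    rw [ofDiv_degree, map_sub, canDiv_degree hK hg]
    omega
  rw [h2, finrank_bot] at h1
  simpa using h1

/-- the divisor `K - det E` -/
noncomputable def dualDiv (E : Bundle 𝕜 K 2) : Point 𝕜 K →₀ ℤ :=
  canDiv hK hg + Finsupp.ofSupportFinite (fun v : Point 𝕜 K => v.ord (E.frame v).1.det)
    (show {v : Point 𝕜 K | v.ord (E.frame v).1.det ≠ 0}.Finite from E.finite_det)

theorem dualDiv_degree (E : Bundle 𝕜 K 2) :
    (dualDiv hK hg E).degree = 2 * genus 𝕜 K - 2 - E.degree := by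
  rw [dualDiv, map_add, canDiv_degree, degree_eq_finsum, Bundle.degree,
    finsum_neg_distrib (fun v : Point 𝕜 K => v.ord (E.frame v).1.det)]
  rw [sub_neg_eq_add]
  rfl

omit hK hg in
/-- rotation by a right angle -/
def rot : (Fin 2 → K) ≃ₗ[𝕜] (Fin 2 → K) where
  toFun f := ![-f 1, f 0]
  invFun f := ![f 1, -f 0]
  left_inv f := by
    ext i
    fin_cases i <;> simp
  right_inv f := by
    ext i
    fin_cases i <;> simp
  map_add' f g := by
    ext i
    fin_cases i
    · simp [add_comm]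
    · simp
  map_smul' c f := by
    ext i
    fin_cases i <;> simp

omit hK hg in
theorem inv_mulVec_rot (g : GL (Fin 2) K) (f : Fin 2 → K) :
    g.1.det • (g⁻¹.1 *ᵥ (rot (𝕜 := 𝕜) f)) =
      ![-(f 0 * g.1 0 1 + f 1 * g.1 1 1), f 0 * g.1 0 0 + f 1 * g.1 1 0] := by
  have h1 : g.1.det • g⁻¹.1 = g.1.adjugate := by
    rw [Matrix.coe_units_inv, Matrix.inv_def, Ring.inverse_eq_inv', smul_smul,
      mul_inv_cancel₀ (gl_det_ne_zero g), one_smul]
  rw [← Matrix.smul_mulVec, h1, Matrix.adjugate_fin_two]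
  ext i
  fin_cases i
  · simp [rot, Matrix.mulVec, dotProduct, Fin.sum_univ_two]
    ring
  · simp [rot, Matrix.mulVec, dotProduct, Fin.sum_univ_two]
    ring

theorem mem_dualK_iff (E : Bundle 𝕜 K 2) (C : Point 𝕜 K →₀ ℤ) (f : Fin 2 → K) :
    f ∈ dualK hK hg (tw E C) ↔ rot (𝕜 := 𝕜) f ∈ secs E (dualDiv hK hg E - C) := by
  rw [mem_secs]
  refine forall_congr' fun v => ?_
  -- both conditions say that the coordinates of `f ^ T g` are small
  have hkey : (∀ s ∈ (tw E C).stalk v, ∑ i, f i * s i ∈ (can hK hg).stalk v) ↔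
      ∀ j, v.val (f 0 * (E.frame v).1 0 j + f 1 * (E.frame v).1 1 j) * exp (C v) ≤
        exp (canDiv hK hg v) := by
    have hcan : ∀ x : K, x ∈ (can hK hg).stalk v ↔ v.val x ≤ exp (canDiv hK hg v) := by
      intro x
      change v.val x ≤ v.val ((can hK hg).frame v : K) ↔ _
      rw [v.val_eq_exp ((can hK hg).frame v).ne_zero]
      rfl
    constructor
    · intro h j
      have h1 := h (((tw E C).frame v).1 *ᵥ Pi.single j 1) (frame_mulVec_mem _ v (by
        intro i
        rcases eq_or_ne i j with rfl | hij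
        · rw [Pi.single_eq_same, map_one]
        · rw [Pi.single_eq_of_ne hij, map_zero]; exact zero_le))
      rw [hcan] at h1
      have h2 : ∑ i, f i * (((tw E C).frame v).1 *ᵥ Pi.single j 1) i =
          (f 0 * (E.frame v).1 0 j + f 1 * (E.frame v).1 1 j) * (upow v (C v) : K) := by
        rw [Matrix.mulVec_single_one, Fin.sum_univ_two]
        change f 0 * (((upow v (C v) : Kˣ) : K) * (E.frame v).1 0 j) +
          f 1 * (((upow v (C v) : Kˣ) : K) * (E.frame v).1 1 j) = _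
        ring
      rwa [h2, map_mul, upow_val] at h1
    · intro h s hs
      rw [hcan]
      set t := ((tw E C).frame v)⁻¹.1 *ᵥ s with ht
      have hst : s = ((tw E C).frame v).1 *ᵥ t := (gl_mulVec_inv _ _).symm
      have h2 : ∑ i, f i * s i = ∑ j, t j *
          ((f 0 * (E.frame v).1 0 j + f 1 * (E.frame v).1 1 j) * (upow v (C v) : K)) := by
        rw [hst, Fin.sum_univ_two, Fin.sum_univ_two]
        simp only [Matrix.mulVec, dotProduct, Fin.sum_univ_two]
        change f 0 * (((upow v (C v) : Kˣ) : K) * (E.frame v).1 0 0 * t 0 +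
            ((upow v (C v) : Kˣ) : K) * (E.frame v).1 0 1 * t 1) +
          f 1 * (((upow v (C v) : Kˣ) : K) * (E.frame v).1 1 0 * t 0 +
            ((upow v (C v) : Kˣ) : K) * (E.frame v).1 1 1 * t 1) = _
        ring
      rw [h2]
      refine Valuation.map_sum_le _ fun j _ => ?_
      rw [map_mul, map_mul, upow_val]
      exact (mul_le_of_le_one_left' (hs j)).trans (h j)
  rw [hkey]
  have hd := gl_det_ne_zero (E.frame v)
  have hdp : 0 < v.val (E.frame v).1.det := zero_lt_iff.2 (v.val_ne_zero hd)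
  have h3 : ∀ x : ℤᵐ⁰, nval E v (rot (𝕜 := 𝕜) f) ≤ x ↔
      ∀ j, v.val (f 0 * (E.frame v).1 0 j + f 1 * (E.frame v).1 1 j) ≤
        v.val (E.frame v).1.det * x := by
    intro x
    have h4 := inv_mulVec_rot (𝕜 := 𝕜) (E.frame v) f
    rw [nval_le_iff]
    have h5 : ∀ i, v.val (((E.frame v)⁻¹.1 *ᵥ (rot (𝕜 := 𝕜) f)) i) ≤ x ↔
        v.val (((E.frame v).1.det • ((E.frame v)⁻¹.1 *ᵥ (rot (𝕜 := 𝕜) f))) i) ≤
          v.val (E.frame v).1.det * x := by
      intro i
      rw [Pi.smul_apply, smul_eq_mul, map_mul, mul_le_mul_iff_right₀ hdp]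
    simp only [h5, h4]
    rw [Fin.forall_fin_two, Fin.forall_fin_two]
    simp only [Matrix.cons_val_zero, Matrix.cons_val_one, Valuation.map_neg]
    exact and_comm
  rw [h3]
  refine forall_congr' fun j => ?_
  rw [← le_mul_inv_iff₀ (by rw [zero_lt_iff]; exact exp_ne_zero), ← exp_neg, ← exp_add,
    v.val_eq_exp hd, ← exp_add, Finsupp.sub_apply, dualDiv, Finsupp.add_apply]
  change _ ≤ exp (canDiv hK hg v + -C v) ↔
    _ ≤ exp (-v.ord (E.frame v).1.det + (canDiv hK hg v + v.ord (E.frame v).1.det - C v))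
  rw [show -v.ord (E.frame v).1.det + (canDiv hK hg v + v.ord (E.frame v).1.det - C v) =
    canDiv hK hg v + -C v by ring]

/-- Riemann-Roch and Serre duality for bundles of rank two -/
theorem rr_two (E : Bundle 𝕜 K 2) (C : Point 𝕜 K →₀ ℤ) :
    (Module.finrank 𝕜 (secs E C) : ℤ) - Module.finrank 𝕜 (secs E (dualDiv hK hg E - C)) =
      2 * C.degree + E.degree + 2 * (1 - genus 𝕜 K) := by
  obtain ⟨h1, h2, h3⟩ := rr hK hg (tw E C)
  have e : dualK hK hg (tw E C) ≃ₗ[𝕜] secs E (dualDiv hK hg E - C) :=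
    { toFun := fun f => ⟨rot (𝕜 := 𝕜) f.1, (mem_dualK_iff hK hg E C f.1).1 f.2⟩
      invFun := fun f => ⟨(rot (𝕜 := 𝕜)).symm f.1, (mem_dualK_iff hK hg E C _).2 (by
        rw [LinearEquiv.apply_symm_apply]
        exact f.2)⟩
      left_inv := fun f => by
        apply Subtype.ext
        exact (rot (𝕜 := 𝕜)).symm_apply_apply _
      right_inv := fun f => by
        apply Subtype.ext
        exact (rot (𝕜 := 𝕜)).apply_symm_apply _
      map_add' := fun f g => by
        apply Subtype.ext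
        exact map_add (rot (𝕜 := 𝕜)) _ _
      map_smul' := fun c f => by
        apply Subtype.ext
        exact map_smul (rot (𝕜 := 𝕜)) _ _ }
  rw [e.finrank_eq, tw_degree] at h3
  change (Module.finrank 𝕜 (secs E C) : ℤ) - _ = _ at h3
  rw [h3]
  push_cast
  ring

end RR

end Pool.Agent.TH185
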