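import Pool.Agent.TH185.Ident
import Pool.Agent.TH126.J350

/-! Consequences of the double counting: symmetry and the number of effective divisors. -/

open scoped WithZero Matrix
open WithZero

set_option linter.unusedSectionVars false

namespace Pool.Agent.TH185

open Pool.Agent.TH185.C

variable {𝕜 K : Type} [Field 𝕜] [IsAlgClosed 𝕜] [Field K] [Algebra 𝕜 K] {n : ℕ}

/-- `1 + Q + ... + Q ^ (c - 1)` -/
def GS (Q c : ℕ) : ℕ := ∑ i ∈ Finset.range c, Q ^ i

theorem GS_mul (Q c : ℕ) (hQ : 2 ≤ Q) : (Q - 1) * GS Q c = Q ^ c - 1 := by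
  have h := Nat.geomSum_eq hQ c
  have h2 : Q - 1 ∣ Q ^ c - 1 := by
    have := Nat.sub_dvd_pow_sub_pow Q 1 c
    rwa [one_pow] at this
  rw [GS, h, Nat.mul_div_cancel' h2]

theorem dual_count (hK : IsCurve 𝕜 K) (hg : genus 𝕜 K ≠ 0) (S : FD 𝕜 K) {E : Bundle 𝕜 K n}
    (hE : Stable S.ψ E.stalk) {B C : Point 𝕜 K →₀ ℤ} (hB : ∀ v, B (S.pt v) = B v)
    (hC : ∀ v, C (S.pt v) = C v) {N : ℕ} (hN : 2 * (genus 𝕜 K : ℤ) - 2 < N) (c : ℕ)
    (hdual : ∀ D : Point 𝕜 K →₀ ℤ, D.degree = N →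
      Module.finrank 𝕜 (secs E (D - B)) = Module.finrank 𝕜 (secs E (C - (D - B))) + c) {a : ℤ}
    (ha : a = B.degree - N) :
    PA S E a * GS S.Q (N + 1 - genus 𝕜 K) =
      S.Q ^ c * (PA S E (-a - C.degree) * GS S.Q (N + 1 - genus 𝕜 K)) + ND S N * GS S.Q c := by
  have h1 := main_count (ε := 1) hK hg S hE hB (by norm_num) (N := N) (a := a)
    (by rw [ha, one_mul]) hN
  have h2 := main_count (ε := -1) (B := B + C) hK hg S hE (by
    intro v
    rw [Finsupp.add_apply, Finsupp.add_apply, hB, hC]) (by norm_num) (N := N)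
    (a := -a - C.degree) (by rw [ha, map_add]; ring) hN
  have hQ := S.two_le_Q
  rw [← GS_mul S.Q _ hQ] at h1 h2
  have h3 : ∑ D ∈ (ND_finite hK S N).toFinset,
      (S.Q ^ Module.finrank 𝕜 (secs E ((1 : ℤ) • (zd D - B))) - 1) =
      S.Q ^ c * ∑ D ∈ (ND_finite hK S N).toFinset,
        (S.Q ^ Module.finrank 𝕜 (secs E ((-1 : ℤ) • (zd D - (B + C)))) - 1) +
      ND S N * (S.Q ^ c - 1) := by
    have h4 : ND S N * (S.Q ^ c - 1) =
        ∑ D ∈ (ND_finite hK S N).toFinset, (S.Q ^ c - 1) := by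
      rw [Finset.sum_const, smul_eq_mul, ← Set.ncard_eq_toFinset_card _ (ND_finite hK S N)]
      rfl
    rw [h4, Finset.mul_sum, ← Finset.sum_add_distrib]
    refine Finset.sum_congr rfl fun D hD => ?_
    rw [Set.Finite.mem_toFinset] at hD
    have h5 := hdual (zd D) (by rw [zd_degree]; exact hD.1)
    have h6 : (1 : ℤ) • (zd D - B) = zd D - B := one_smul _ _
    have h7 : (-1 : ℤ) • (zd D - (B + C)) = C - (zd D - B) := by
      rw [neg_smul, one_smul]
      abel
    rw [h6, h7, h5, pow_add]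
    have h8 : 1 ≤ S.Q ^ c := Nat.one_le_pow _ _ S.Q_pos
    have h9 : 1 ≤ S.Q ^ Module.finrank 𝕜 (secs E (C - (zd D - B))) := Nat.one_le_pow _ _ S.Q_pos
    obtain ⟨x, hx⟩ := Nat.exists_eq_add_of_le h8
    obtain ⟨y, hy⟩ := Nat.exists_eq_add_of_le h9
    rw [hx, hy, Nat.add_sub_cancel_left, Nat.add_sub_cancel_left]
    have : (1 + y) * (1 + x) - 1 = y + x + y * x := by
      rw [show (1 + y) * (1 + x) = 1 + (y + x + y * x) by ring, Nat.add_sub_cancel_left]
    rw [this]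
    ring
  rw [h1, h2, ← GS_mul S.Q c hQ] at h3
  have h4 : 0 < S.Q - 1 := by omega
  apply Nat.eq_of_mul_eq_mul_left h4
  calc (S.Q - 1) * (PA S E a * GS S.Q (N + 1 - genus 𝕜 K))
      = PA S E a * ((S.Q - 1) * GS S.Q (N + 1 - genus 𝕜 K)) := by ring
    _ = _ := h3
    _ = _ := by ring

/-- the trivial bundle of rank one is stable -/
theorem trivial_stable (S : FD 𝕜 K) (n : ℕ) : Stable S.ψ (trivialBundle 𝕜 K n).stalk := by
  rw [S.stable_iff]
  intro v s
  have h : ∀ (w : Point 𝕜 K) (t : Fin n → K), t ∈ (trivialBundle 𝕜 K n).stalk w ↔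
      ∀ i, w.val (t i) ≤ 1 := by
    intro w t
    change (∀ i, w.val ((((1 : GL (Fin n) K)⁻¹).1 *ᵥ t) i) ≤ 1) ↔ _
    simp
  rw [h, h]
  refine forall_congr' fun i => ?_
  rw [S.vec_apply, S.pt_val]

theorem nval_trivial_one (v : Point 𝕜 K) (s : Fin 1 → K) :
    nval (trivialBundle 𝕜 K 1) v s = v.val (s 0) := by
  apply le_antisymm
  · rw [nval_le_iff]
    intro i
    change v.val ((((1 : GL (Fin 1) K)⁻¹).1 *ᵥ s) i) ≤ _
    rw [Subsingleton.elim i 0]
    simp
  · have := (nval_le_iff (trivialBundle 𝕜 K 1) v s _).1 le_rfl 0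
    change v.val ((((1 : GL (Fin 1) K)⁻¹).1 *ᵥ s) 0) ≤ _ at this
    simpa using this

theorem finrank_secs_one (C : Point 𝕜 K →₀ ℤ) :
    Module.finrank 𝕜 (secs (trivialBundle 𝕜 K 1) C) = Module.finrank 𝕜 (H0 (ofDiv C)) := by
  have hiff : ∀ s : Fin 1 → K, s ∈ secs (trivialBundle 𝕜 K 1) C ↔ s 0 ∈ H0 (ofDiv C) := by
    intro s
    rw [mem_secs, mem_H0_ofDiv]
    refine forall_congr' fun v => ?_
    rw [nval_trivial_one]
  let e : secs (trivialBundle 𝕜 K 1) C ≃ₗ[𝕜] H0 (ofDiv C) :=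
    { toFun := fun s => ⟨s.1 0, (hiff _).1 s.2⟩
      invFun := fun f => ⟨fun _ => f.1, (hiff _).2 f.2⟩
      left_inv := fun s => by
        apply Subtype.ext
        funext i
        change s.1 0 = s.1 i
        rw [Subsingleton.elim i 0]
      right_inv := fun f => rfl
      map_add' := fun s t => rfl
      map_smul' := fun c s => rfl }
  exact e.finrank_eq

theorem PA_one (hK : IsCurve 𝕜 K) (S : FD 𝕜 K) (a : ℤ) :
    PA S (trivialBundle 𝕜 K 1) a = ND S (-a) := by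
  have hnorm : ∀ s : Fin 1 → K, IsNorm s ↔ s = fun _ => 1 := by
    intro s
    constructor
    · rintro ⟨i, hi, -⟩
      funext j
      rw [Subsingleton.elim j i, hi]
    · rintro rfl
      exact ⟨0, rfl, fun j hj => absurd hj (by rw [Subsingleton.elim j 0]; exact lt_irrefl _)⟩
  have hdeg : vdeg (trivialBundle 𝕜 K 1) (fun _ => (1 : K)) = 0 := by
    rw [vdeg, finsum_eq_zero_of_forall_eq_zero]
    intro v
    rw [vord, nval_trivial_one, map_one, log_one, neg_zero]
  rw [PA, ND]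
  symm
  refine Set.ncard_congr (fun D _ => ((fun _ => (1 : K)), D)) ?_ ?_ ?_
  · rintro D ⟨h1, h2⟩
    refine ⟨(hnorm _).2 rfl, ?_, h2, ?_⟩
    · funext i
      exact map_one S.ψ
    · rw [hdeg, h1]
      ring
  · intro D D' _ _ h
    exact (Prod.ext_iff.1 h).2
  · rintro ⟨s, D⟩ ⟨h1, h2, h3, h4⟩
    dsimp only at h1 h2 h3 h4
    rw [hnorm] at h1
    subst h1
    rw [hdeg] at h4
    exact ⟨D, ⟨by linarith, h3⟩, rfl⟩

/-- the symmetry for line bundles -/
theorem line_count (hK : IsCurve 𝕜 K) (hg : genus 𝕜 K ≠ 0) (S : FD 𝕜 K) {P : Point 𝕜 K}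
    (hP : S.pt P = P) (hcan : ∀ v, canDiv hK hg (S.pt v) = canDiv hK hg v) {N : ℕ}
    (hN : 2 * (genus 𝕜 K : ℤ) - 2 < N) (i : ℕ) :
    ND S (genus 𝕜 K - 1 + i) * GS S.Q (N + 1 - genus 𝕜 K) =
      S.Q ^ i * (ND S (genus 𝕜 K - 1 - i) * GS S.Q (N + 1 - genus 𝕜 K)) + ND S N * GS S.Q i := by
  classical
  set m : ℤ := N - (genus 𝕜 K - 1 + i) with hm
  have hBs : ∀ v, (Finsupp.single P m) (S.pt v) = (Finsupp.single P m) v := by
    intro v
    rw [Finsupp.single_apply, Finsupp.single_apply]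
    congr 1
    apply propext
    constructor
    · intro h
      apply S.pt.injective
      rw [hP, h]
    · rintro rfl
      exact hP.symm
  have hBd : (Finsupp.single P m : Point 𝕜 K →₀ ℤ).degree = m := Finsupp.degree_single _ _
  have h := dual_count hK hg S (trivial_stable S 1) (B := Finsupp.single P m)
    (C := canDiv hK hg) hBs hcan hN i (by
      intro D hD
      rw [finrank_secs_one, finrank_secs_one]
      have h1 := rr_line hK hg (D - Finsupp.single P m)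
      rw [map_sub, hBd, hD] at h1
      omega) (a := -(genus 𝕜 K - 1 + i)) (by rw [hBd, hm]; ring)
  rw [PA_one hK, PA_one hK, neg_neg, canDiv_degree] at h
  have h2 : -((genus 𝕜 K : ℤ) - 1 + i - (2 * genus 𝕜 K - 2)) = genus 𝕜 K - 1 - i := by ring
  rw [h2] at h
  exact h

/-- the symmetry for bundles of rank two -/
theorem two_count (hK : IsCurve 𝕜 K) (hg : genus 𝕜 K ≠ 0) (S : FD 𝕜 K) {P : Point 𝕜 K}
    (hP : S.pt P = P) {E : Bundle 𝕜 K 2} (hE : Stable S.ψ E.stalk)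
    (hdual : ∀ v, dualDiv hK hg E (S.pt v) = dualDiv hK hg E v) {N : ℕ}
    (hN : 2 * (genus 𝕜 K : ℤ) - 2 < N) (a : ℤ) (c : ℕ)
    (hc : (c : ℤ) = E.degree - 2 * a + 2 - 2 * genus 𝕜 K) :
    PA S E a * GS S.Q (N + 1 - genus 𝕜 K) =
      S.Q ^ c * (PA S E (E.degree - a - (2 * genus 𝕜 K - 2)) * GS S.Q (N + 1 - genus 𝕜 K)) +
        ND S N * GS S.Q c := by
  classical
  set m : ℤ := N + a with hm
  have hBs : ∀ v, (Finsupp.single P m) (S.pt v) = (Finsupp.single P m) v := by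
    intro v
    rw [Finsupp.single_apply, Finsupp.single_apply]
    congr 1
    apply propext
    constructor
    · intro h
      apply S.pt.injective
      rw [hP, h]
    · rintro rfl
      exact hP.symm
  have hBd : (Finsupp.single P m : Point 𝕜 K →₀ ℤ).degree = m := Finsupp.degree_single _ _
  have h := dual_count hK hg S hE (B := Finsupp.single P m)
    (C := dualDiv hK hg E) hBs hdual hN c (by
      intro D hD
      have h1 := rr_two hK hg E (D - Finsupp.single P m)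
      rw [map_sub, hBd, hD] at h1
      omega) (a := a) (by rw [hBd, hm]; ring)
  rw [dualDiv_degree] at h
  have h2 : -a - (2 * (genus 𝕜 K : ℤ) - 2 - E.degree) = E.degree - a - (2 * genus 𝕜 K - 2) := by
    ring
  rw [h2] at h
  exact h

theorem ND_zero (hK : IsCurve 𝕜 K) (S : FD 𝕜 K) : ND S 0 = 1 := by
  rw [ND, Set.ncard_eq_one]
  refine ⟨0, ?_⟩
  ext D
  simp only [Set.mem_ofPred_eq, Set.mem_singleton_iff]
  constructor
  · rintro ⟨h, -⟩
    have : D.degree = 0 := by exact_mod_cast h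
    exact (Finsupp.degree_eq_zero_iff _).1 this
  · rintro rfl
    simp

theorem ND_neg (S : FD 𝕜 K) {j : ℤ} (hj : j < 0) : ND S j = 0 := by
  have h : {D : Point 𝕜 K →₀ ℕ | (D.degree : ℤ) = j ∧ D.mapDomain S.pt = D} = ∅ := by
    ext D
    simp only [Set.mem_ofPred_eq, Set.mem_empty_iff_false, iff_false, not_and]
    intro h
    omega
  rw [ND, h, Set.ncard_empty]

/-- the number of effective divisors of large degree is `ℓ`-adically small -/
theorem ND_small (hK : IsCurve 𝕜 K) (hg : genus 𝕜 K ≠ 0) (S : FD 𝕜 K) {P : Point 𝕜 K}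
    (hP : S.pt P = P) (hcan : ∀ v, canDiv hK hg (S.pt v) = canDiv hK hg v) (ℓ : ℕ)
    [Fact ℓ.Prime] (hℓ : ℓ ≠ S.p) (j : ℕ) (hj : 2 * genus 𝕜 K - 2 < j) (s : ℕ) :
    ∃ T : ℕ, 0 < T ∧ ∀ m (hm : 0 < m), T ∣ m → ℓ ^ s ∣ ND (S.pow m hm) j := by
  set g := genus 𝕜 K with hgdef
  have hg1 : 1 ≤ g := Nat.pos_of_ne_zero hg
  have hQ := S.two_le_Q
  let N : ℕ → ℕ → ℕ := fun m j =>
    {D : Point 𝕜 K →₀ ℕ | D.degree = j ∧ D.mapDomain (S.pt ^ m : Equiv.Perm (Point 𝕜 K)) = D}.ncard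
  have hNND : ∀ m (hm : 0 < m) (j : ℕ), ND (S.pow m hm) j = N m j := by
    intro m hm j
    rw [ND, S.pow_pt]
    simp only [Nat.cast_inj]
    rfl
  have hN0 : ∀ m, N m 0 = 1 := by
    intro m
    change Set.ncard _ = 1
    rw [Set.ncard_eq_one]
    refine ⟨0, ?_⟩
    ext D
    simp only [Set.mem_ofPred_eq, Set.mem_singleton_iff]
    constructor
    · rintro ⟨h, -⟩
      exact (Finsupp.degree_eq_zero_iff _).1 h
    · rintro rfl
      simp
  have hrec : ∀ m, 0 < m → ∀ j, j * N m j = ∑ r ∈ Finset.Icc 1 j,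
      {v : Point 𝕜 K | (S.pt ^ (m * r)) v = v}.ncard * N m (j - r) := by
    intro m hm j
    have h := orbit_recursion (S.pt ^ m) (fun i hi => by
      rw [← pow_mul]
      exact S.finite_fix_pow hK _ (Nat.mul_pos hm hi)) j
    simp only [← pow_mul] at h
    exact h
  have hone : ∀ j : ℕ, N 1 j = ND S j := by
    intro j
    rw [ND]
    simp only [Nat.cast_inj]
    change Set.ncard _ = _
    rw [pow_one]
  -- the numbers for `n = 1`
  set M : ℕ := 2 * g with hM
  have hMN : 2 * (g : ℤ) - 2 < (M : ℕ) := by rw [hM]; push_cast; omega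
  set W : ℚ := ((GS S.Q (M + 1 - g) : ℕ) : ℚ) with hW
  have hWpos : 0 < W := by
    rw [hW]
    have : 0 < GS S.Q (M + 1 - g) := by
      rw [GS]
      apply Finset.sum_pos
      · intro i _
        exact pow_pos S.Q_pos _
      · rw [Finset.nonempty_range_iff]
        omega
    exact_mod_cast this
  have hQ1 : ((S.Q : ℚ) - 1) ≠ 0 := by
    have : (2 : ℚ) ≤ S.Q := by exact_mod_cast hQ
    intro h
    linarith
  have hGS : ∀ i, ((GS S.Q i : ℕ) : ℚ) = ((S.Q : ℚ) ^ i - 1) / ((S.Q : ℚ) - 1) := by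
    intro i
    rw [eq_div_iff hQ1, mul_comm, GS, Nat.cast_sum]
    simp only [Nat.cast_pow]
    exact mul_geom_sum _ _
  obtain ⟨T, hT, h⟩ := zeta_periodic (fun r => {v : Point 𝕜 K | (S.pt ^ r) v = v}.ncard) N hN0 hrec
    g S.Q hg1 hQ ((ND S M : ℚ) / W) (by
      intro i
      have h1 := line_count hK hg S hP hcan hMN i
      rw [← hgdef] at h1
      have h2 : (N 1 (g - 1 + i) : ℚ) = ND S (g - 1 + i) := by
        rw [hone]
        congr 2
        push_cast
        omega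
      have h3 : (if i ≤ g - 1 then (S.Q : ℚ) ^ i * N 1 (g - 1 - i) else 0) =
          (S.Q : ℚ) ^ i * ND S (g - 1 - i) := by
        split_ifs with hi
        · rw [hone]
          congr 3
          omega
        · rw [ND_neg S (by omega)]
          simp
      rw [h2, h3]
      have h4 : (ND S (g - 1 + i) : ℚ) * W = (S.Q : ℚ) ^ i * (ND S (g - 1 - i) * W) +
          ND S M * (((S.Q : ℚ) ^ i - 1) / ((S.Q : ℚ) - 1)) := by
        rw [← hGS, hW]
        exact_mod_cast h1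
      have h5 : (ND S (g - 1 + i) : ℚ) - (S.Q : ℚ) ^ i * ND S (g - 1 - i) =
          (ND S M * (((S.Q : ℚ) ^ i - 1) / ((S.Q : ℚ) - 1))) / W := by
        rw [eq_div_iff hWpos.ne']
        linarith
      rw [h5]
      ring) ℓ (by
      intro hd
      have hd' : ℓ ∣ S.p := (Fact.out : ℓ.Prime).dvd_of_dvd_pow hd
      exact hℓ ((Nat.prime_dvd_prime_iff_eq (Fact.out : ℓ.Prime) S.prime).1 hd')) j hj s
  refine ⟨T, hT, fun m hm hTm => ?_⟩
  rw [hNND]
  exact h m hm hTm

end Pool.Agent.TH185
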